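import Pool.Agent.Lib.MP_979eef_lc.Q.Defs

/-!
# MP_979eef_lc, one-sided protocols, module Bal: balanced functions

`unbal_one`: Chebyshev. `∑ over f : Z → Bool of (2 N f - q)^2 = q 2^q`, `N f = #{z | f z = true}`,
`q = Fintype.card Z` (write `2 N f - q = ∑ z, (if f z then 1 else -1)`, expand the square, the terms
with `z ≠ z'` cancel; or induction). If `4 #{z | f z = b} < q` then `(2 N f - q)^2 ≥ (q / 2)^2`.
So the number of these `f` times `q^2 / 4` is at most `q 2^q`.
`unbal_card`: union over `i : Fin n`; the `G` with `G i` in a set `U` of functions are `U.card *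
(2^q)^(n-1)` many.
-/

set_option autoImplicit false

namespace MP979

open Finset

variable {n : ℕ} {Z : Type} [Fintype Z] [DecidableEq Z]

/-- the sign -/
private def Bal_e (b : Bool) : ℝ := if b then 1 else -1

private theorem Bal_e_sq (b : Bool) : Bal_e b * Bal_e b = 1 := by
  cases b <;> simp [Bal_e]

private theorem Bal_e_not (b : Bool) : Bal_e (!b) = -Bal_e b := by
  cases b <;> simp [Bal_e]

private theorem Bal_cross {z z' : Z} (h : z ≠ z') :
    ∑ f : Z → Bool, Bal_e (f z) * Bal_e (f z') = 0 := by
  let e : (Z → Bool) → (Z → Bool) := fun f => Function.update f z (!f z)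
  have he : Function.Involutive e := by
    intro f
    show Function.update (Function.update f z (!f z)) z (!(Function.update f z (!f z)) z) = f
    rw [Function.update_self, Function.update_idem, Bool.not_not, Function.update_eq_self]
  have h1 : ∑ f : Z → Bool, Bal_e (f z) * Bal_e (f z') =
      ∑ f : Z → Bool, Bal_e (e f z) * Bal_e (e f z') :=
    (Equiv.sum_comp (Function.Involutive.toPerm e he)
      (fun f : Z → Bool => Bal_e (f z) * Bal_e (f z'))).symm
  have h2 : ∀ f : Z → Bool, Bal_e (e f z) * Bal_e (e f z') = -(Bal_e (f z) * Bal_e (f z')) := by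
    intro f
    have a1 : e f z = !f z := Function.update_self _ _ _
    have a2 : e f z' = f z' := Function.update_of_ne h.symm _ _
    rw [a1, a2, Bal_e_not]
    ring
  rw [Finset.sum_congr rfl (fun f _ => h2 f), Finset.sum_neg_distrib] at h1
  linarith

private theorem Bal_second : ∑ f : Z → Bool, (∑ z, Bal_e (f z)) ^ 2 =
    Fintype.card Z * 2 ^ Fintype.card Z := by
  have h1 : ∀ f : Z → Bool, (∑ z, Bal_e (f z)) ^ 2 = ∑ z, ∑ z', Bal_e (f z) * Bal_e (f z') := by
    intro f
    rw [sq, Finset.sum_mul_sum]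
  rw [Finset.sum_congr rfl (fun f _ => h1 f), Finset.sum_comm]
  have h2 : ∀ z : Z, ∑ f : Z → Bool, ∑ z', Bal_e (f z) * Bal_e (f z') = 2 ^ Fintype.card Z := by
    intro z
    rw [Finset.sum_comm, Finset.sum_eq_single z]
    · rw [Finset.sum_congr rfl (fun f _ => Bal_e_sq (f z))]
      simp
    · intro z' _ hne
      exact Bal_cross hne.symm
    · intro h
      exact absurd (mem_univ z) h
  rw [Finset.sum_congr rfl (fun z _ => h2 z)]
  simp

private theorem Bal_sum (f : Z → Bool) : ∑ z, Bal_e (f z) =
    ((univ.filter (fun z => f z = true)).card : ℝ) - (univ.filter (fun z => f z = false)).card := by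
  have h1 : ∀ z, Bal_e (f z) = (if f z = true then (1 : ℝ) else 0) - (if f z = false then 1 else 0) := by
    intro z
    cases f z <;> simp [Bal_e]
  rw [Finset.sum_congr rfl (fun z _ => h1 z), Finset.sum_sub_distrib, Finset.sum_boole,
    Finset.sum_boole]

private theorem Bal_card (f : Z → Bool) : ((univ.filter (fun z => f z = true)).card : ℝ) +
    (univ.filter (fun z => f z = false)).card = Fintype.card Z := by
  have h1 : (univ.filter (fun z => f z = false)) = univ.filter (fun z => ¬ f z = true) := by
    ext z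
    simp
  rw [h1, ← Nat.cast_add, Finset.card_filter_add_card_filter_not, Finset.card_univ]

private theorem Bal_big (f : Z → Bool) (h : ∃ b : Bool,
    4 * ((univ : Finset Z).filter (fun z => f z = b)).card < Fintype.card Z) :
    ((Fintype.card Z : ℝ)) ^ 2 / 4 ≤ (∑ z, Bal_e (f z)) ^ 2 := by
  obtain ⟨b, hb⟩ := h
  have h1 := Bal_sum f
  have h2 := Bal_card f
  set q : ℝ := (Fintype.card Z : ℝ) with hq
  have hb' : 4 * (((univ : Finset Z).filter (fun z => f z = b)).card : ℝ) < q := by
    rw [hq]
    exact_mod_cast hb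
  have hq0 : 0 ≤ q := Nat.cast_nonneg _
  rw [h1]
  cases b with
  | true => nlinarith
  | false => nlinarith

theorem unbal_one : (((univ : Finset (Z → Bool)).filter (fun f => ∃ b : Bool,
    4 * ((univ : Finset Z).filter (fun z => f z = b)).card < Fintype.card Z)).card : ℝ) *
      Fintype.card Z ≤ 4 * 2 ^ Fintype.card Z := by
  set U := (univ : Finset (Z → Bool)).filter (fun f => ∃ b : Bool,
    4 * ((univ : Finset Z).filter (fun z => f z = b)).card < Fintype.card Z) with hU
  have h1 : ∑ _f ∈ U, ((Fintype.card Z : ℝ)) ^ 2 / 4 ≤ ∑ f ∈ U, (∑ z, Bal_e (f z)) ^ 2 :=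
    Finset.sum_le_sum (fun f hf => Bal_big f (mem_filter.1 hf).2)
  have h2 : ∑ f ∈ U, (∑ z, Bal_e (f z)) ^ 2 ≤ ∑ f : Z → Bool, (∑ z, Bal_e (f z)) ^ 2 :=
    Finset.sum_le_univ_sum_of_nonneg (fun f => sq_nonneg _)
  rw [Bal_second] at h2
  rw [Finset.sum_const, nsmul_eq_mul] at h1
  have h3 := h1.trans h2
  rcases Nat.eq_zero_or_pos (Fintype.card Z) with h0 | h0
  · rw [h0]
    norm_num
  · have hq : (0 : ℝ) < Fintype.card Z := Nat.cast_pos.2 h0
    have h4 : (Fintype.card Z : ℝ) * ((U.card : ℝ) * Fintype.card Z) ≤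
        (Fintype.card Z : ℝ) * (4 * 2 ^ Fintype.card Z) := by
      have e : (Fintype.card Z : ℝ) * ((U.card : ℝ) * Fintype.card Z) =
        4 * (U.card * ((Fintype.card Z : ℝ) ^ 2 / 4)) := by ring
      rw [e]
      linarith
    exact le_of_mul_le_mul_left h4 hq

theorem unbal_card : (((univ : Finset (Fin n → Z → Bool)).filter (fun G => ∃ i, ∃ b : Bool,
    4 * ((univ : Finset Z).filter (fun z => G i z = b)).card < Fintype.card Z)).card : ℝ) *
      Fintype.card Z ≤ 4 * n * 2 ^ (n * Fintype.card Z) := by
  classical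
  set U := (univ : Finset (Z → Bool)).filter (fun f => ∃ b : Bool,
    4 * ((univ : Finset Z).filter (fun z => f z = b)).card < Fintype.card Z) with hU
  have hone : (U.card : ℝ) * Fintype.card Z ≤ 4 * 2 ^ Fintype.card Z := unbal_one
  have hq0 : (0 : ℝ) ≤ Fintype.card Z := Nat.cast_nonneg _
  have hsub : (univ : Finset (Fin n → Z → Bool)).filter (fun G => ∃ i, ∃ b : Bool,
      4 * ((univ : Finset Z).filter (fun z => G i z = b)).card < Fintype.card Z) ⊆
      univ.biUnion (fun i : Fin n => Fintype.piFinset (fun j => if j = i then U else univ)) := by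
    intro G hG
    obtain ⟨i, hi⟩ := (mem_filter.1 hG).2
    refine mem_biUnion.2 ⟨i, mem_univ i, Fintype.mem_piFinset.2 (fun j => ?_)⟩
    by_cases h : j = i
    · rw [if_pos h, h]
      exact mem_filter.2 ⟨mem_univ _, hi⟩
    · rw [if_neg h]
      exact mem_univ _
  have hcard : ∀ i : Fin n, ((Fintype.piFinset (fun j => if j = i then U else univ)).card : ℝ) *
      Fintype.card Z ≤ 4 * 2 ^ (n * Fintype.card Z) := by
    intro i
    rw [Fintype.card_piFinset, ← Finset.mul_prod_erase _ _ (mem_univ i), if_pos rfl,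
      Finset.prod_congr rfl (g := fun _ => 2 ^ Fintype.card Z) (fun j hj => by
        rw [if_neg (ne_of_mem_erase hj), card_univ, Fintype.card_fun, Fintype.card_bool]),
      Finset.prod_const, card_erase_of_mem (mem_univ i), card_univ, Fintype.card_fin]
    push_cast
    have hn : 1 ≤ n := by have := i.2; omega
    have e : (2 : ℝ) ^ (n * Fintype.card Z) = 2 ^ Fintype.card Z * (2 ^ Fintype.card Z) ^ (n - 1) := by
      rw [mul_comm n, pow_mul, ← pow_succ', Nat.sub_add_cancel hn]
    rw [e]
    have h1 : (0 : ℝ) ≤ (2 ^ Fintype.card Z) ^ (n - 1) := by positivity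
    have h2 := mul_le_mul_of_nonneg_right hone h1
    nlinarith [h2]
  calc (((univ : Finset (Fin n → Z → Bool)).filter (fun G => ∃ i, ∃ b : Bool,
          4 * ((univ : Finset Z).filter (fun z => G i z = b)).card < Fintype.card Z)).card : ℝ) *
          Fintype.card Z
      ≤ (∑ i : Fin n, ((Fintype.piFinset (fun j => if j = i then U else univ)).card : ℝ)) *
          Fintype.card Z := by
        refine mul_le_mul_of_nonneg_right ?_ hq0
        have h1 := (card_le_card hsub).trans card_biUnion_le
        exact_mod_cast h1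
    _ = ∑ i : Fin n, ((Fintype.piFinset (fun j => if j = i then U else univ)).card : ℝ) *
          Fintype.card Z := Finset.sum_mul _ _ _
    _ ≤ ∑ _i : Fin n, (4 * 2 ^ (n * Fintype.card Z) : ℝ) := Finset.sum_le_sum (fun i _ => hcard i)
    _ = 4 * n * 2 ^ (n * Fintype.card Z) := by
        rw [Finset.sum_const, card_univ, Fintype.card_fin, nsmul_eq_mul]
        ring

end MP979
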