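import Pool.Agent.Lib.MP_979eef_lc.R.Sto
import Pool.Agent.Lib.MP_979eef_lc.Q.Hd

/-!
# MP_979eef_lc, one-sided protocols, module Beg: the initial state

`os_start`: `Yb G inp univ {y | comp f g y = false} b`, for `f b = false`, is the set of the `w` with
`G i (w i) = b i` for all `i` (`comp f g (inp w) = f (fun i => G i (w i))` by `hcomp`), a product
(`Fintype.piFinset`), of card `∏ i, #{z | G i z = b i} ≥ (q / 4) ^ n`.
-/

set_option autoImplicit false

namespace MP979

open Finset

variable {n : ℕ} {Z : Type} [Fintype Z] [DecidableEq Z]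

theorem os_start {G : Fin n → Z → Bool} {inp : (Fin n → Z) → (Fin n × Fin n → Bool)}
    {S : Finset ((Fin n → Z) → Bool)} {θ : ℕ} {f g : (Fin n → Bool) → Bool} {c : ℝ}
    (hcomp : ∀ w, comp f g (inp w) = f (fun i => G i (w i)))
    (hbal : ∀ i, ∀ b : Bool,
      Fintype.card Z ≤ 4 * ((univ : Finset Z).filter (fun z => G i z = b)).card)
    (hf : ∀ φ : Fml (Fin n), (∀ a, φ.eval a = f a) → c ≤ φ.size) :
    Os G inp S θ {y | comp f g y = false} univ {a | f a = true} {b | f b = false} 0
      (((Fintype.card Z : ℝ) / 4) ^ n) c := by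
  refine ⟨?_, fam_univ S θ, ?_⟩
  · intro b hb
    have hb' : f b = false := hb
    have hset : Yb G inp univ {y | comp f g y = false} b =
        Fintype.piFinset (fun i => (univ : Finset Z).filter (fun z => G i z = b i)) := by
      ext w
      unfold Yb
      simp only [mem_filter, mem_univ, true_and, Fintype.mem_piFinset]
      constructor
      · rintro ⟨h, -⟩
        exact h
      · intro h
        refine ⟨h, ?_⟩
        have h1 : (fun i => G i (w i)) = b := funext h
        have h2 : comp f g (inp w) = false := by rw [hcomp w, h1, hb']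
        exact h2
    rw [hset, Fintype.card_piFinset, Nat.cast_prod]
    have h3 : (((Fintype.card Z : ℝ) / 4) ^ n) = ∏ _i : Fin n, ((Fintype.card Z : ℝ) / 4) := by
      rw [prod_const, card_univ, Fintype.card_fin]
    rw [h3]
    refine prod_le_prod (fun i _ => by positivity) (fun i _ => ?_)
    have h4 : (Fintype.card Z : ℝ) ≤
        4 * (((univ : Finset Z).filter (fun z => G i z = b i)).card : ℝ) := by
      exact_mod_cast hbal i (b i)
    linarith
  · intro φ h1 h2
    refine hf φ (fun a => ?_)
    rcases ha : f a with _ | _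
    · exact h2 a ha
    · exact h1 a ha

end MP979
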