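import Pool.Agent.Lib.MP_979eef_lc.Q.Defs2

/-!
# MP_979eef_lc, one-sided protocols: the class of protocols (helper4)
-/

set_option autoImplicit false

namespace MP979

open Finset

/-- The protocol with the players exchanged. -/
def Prot.swap {ι : Type} : Prot ι → Prot ι
  | .leaf i => .leaf i
  | .alice m P Q => .bob m (swap P) (swap Q)
  | .bob m P Q => .alice m (swap P) (swap Q)

/-- One-sided protocols: the first `k` messages on every path, Bob's messages are arbitrary. `H` is
the list of the functions sent by Alice or opened so far; `a` messages of Alice may still be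
arbitrary, and `Q` functions of `𝓗` may still be opened. A message `m` of Alice is
* arbitrary, if all leaves below name variables of at most `v` blocks, or
* arbitrary (at most `a` times on a path), or
* in `𝓗`, or
* determined by all the values `g (x_i)` and by the values at `x` of the functions in `H` and of new
  functions `L` of `𝓗` that are opened. -/
def OneSided {n : ℕ} (g : (Fin n → Bool) → Bool) (𝓗 : Finset ((Fin n × Fin n → Bool) → Bool))
    (v : ℕ) : ℕ → ℕ → ℕ → List ((Fin n × Fin n → Bool) → Bool) → Prot (Fin n × Fin n) → Prop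
  | 0, _, _, _, _ => True
  | _ + 1, _, _, _, .leaf _ => True
  | k + 1, a, Q, H, .alice m P P' =>
      (∃ J : Finset (Fin n), J.card ≤ v ∧ InBlocks J (.alice m P P')) ∨
      (∃ a', a = a' + 1 ∧ OneSided g 𝓗 v k a' Q H P ∧ OneSided g 𝓗 v k a' Q H P') ∨
      (m ∈ 𝓗 ∧ OneSided g 𝓗 v k a Q (m :: H) P ∧ OneSided g 𝓗 v k a Q (m :: H) P') ∨
      ∃ L : List ((Fin n × Fin n → Bool) → Bool), L.length ≤ Q ∧ (∀ h ∈ L, h ∈ 𝓗) ∧
        MsgH g ∅ (H ++ L) m ∧ OneSided g 𝓗 v k a (Q - L.length) (H ++ L) P ∧
        OneSided g 𝓗 v k a (Q - L.length) (H ++ L) P'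
  | k + 1, a, Q, H, .bob _ P P' => OneSided g 𝓗 v k a Q H P ∧ OneSided g 𝓗 v k a Q H P'

end MP979
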