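import Pool.Agent.Lib.MP_979eef_lc.R.Sto
import Pool.Agent.Lib.MP_979eef_lc.Q.Hd

/-!
# MP_979eef_lc, one-sided protocols, module Gob: a good element of B

`hard_good`. Suppose no `b ∈ B` is good. Call `τ : Fin C → Fin n × Bool` bad if no `a ∈ A` satisfies
`a (τ j).1 = (τ j).2` for all `j`. CNF: the AND over the bad `τ` of the OR over `j : Fin C` of
`a (τ j).1 ≠ (τ j).2` (literal `.lit (τ j).1 (! (τ j).2)`). It is true on `A` by definition of bad.
For `b ∈ B` there is `J`, `|J| ≤ C`, with no `a ∈ A` equal to `b` on `J`; `J` is not empty because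
`A` is nonempty (`hard_nonempty`, `2 < c`); list `J` as the first coordinates of a `τ : Fin C → _`
with repetitions, `τ j = (i_j, b i_j)`: this `τ` is bad and its clause is false at `b`. There is a
bad `τ` (`B` is nonempty). Size at most `C (2 n)^C`, but `c > C (2 n)^C`: contradiction.

`hard_opens`: `hard_open` (Q/Hd) for the elements of `J` one after another: with `c ↦ (c - 2)/2`,
`c + 2 ↦ (c + 2)/2`.
-/

set_option autoImplicit false

namespace MP979

open Finset

private theorem gob_or {ι : Type} : ∀ L : List (Fml ι), L ≠ [] → ∃ φ : Fml ι,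
    (∀ x, φ.eval x = true ↔ ∃ ψ ∈ L, ψ.eval x = true) ∧ φ.size = (L.map Fml.size).sum := by
  intro L
  induction L with
  | nil => intro h; exact absurd rfl h
  | cons ψ L ih =>
    intro _
    rcases L.eq_nil_or_concat with hL | ⟨_, _, hL⟩
    · subst hL
      exact ⟨ψ, fun x => by simp, by simp⟩
    · obtain ⟨φ, h1, h2⟩ := ih (by rw [hL]; simp)
      refine ⟨Fml.or ψ φ, fun x => ?_, ?_⟩
      · simp only [Fml.eval, Bool.or_eq_true, h1, List.mem_cons, exists_eq_or_imp]
      · simp only [Fml.size, h2, List.map_cons, List.sum_cons]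

private theorem gob_and {ι : Type} : ∀ L : List (Fml ι), L ≠ [] → ∃ φ : Fml ι,
    (∀ x, φ.eval x = true ↔ ∀ ψ ∈ L, ψ.eval x = true) ∧ φ.size = (L.map Fml.size).sum := by
  intro L
  induction L with
  | nil => intro h; exact absurd rfl h
  | cons ψ L ih =>
    intro _
    rcases L.eq_nil_or_concat with hL | ⟨_, _, hL⟩
    · subst hL
      exact ⟨ψ, fun x => by simp, by simp⟩
    · obtain ⟨φ, h1, h2⟩ := ih (by rw [hL]; simp)
      refine ⟨Fml.and ψ φ, fun x => ?_, ?_⟩
      · simp only [Fml.eval, Bool.and_eq_true, h1, List.mem_cons, forall_eq_or_imp]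
      · simp only [Fml.size, h2, List.map_cons, List.sum_cons]

/-- A clause. -/
private theorem gob_clause {n C : ℕ} (hC : 1 ≤ C) (τ : Fin C → Fin n × Bool) : ∃ φ : Fml (Fin n),
    (∀ x, φ.eval x = true ↔ ∃ j, x (τ j).1 ≠ (τ j).2) ∧ φ.size = C := by
  obtain ⟨φ, h1, h2⟩ := gob_or ((List.finRange C).map (fun j => Fml.lit (τ j).1 (!(τ j).2))) (by
    intro h
    have := congrArg List.length h
    rw [List.length_map, List.length_finRange, List.length_nil] at this
    omega)
  refine ⟨φ, fun x => ?_, ?_⟩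
  · rw [h1]
    constructor
    · rintro ⟨ψ, hψ, hx⟩
      obtain ⟨j, _, rfl⟩ := List.mem_map.1 hψ
      refine ⟨j, fun he => ?_⟩
      simp only [Fml.eval, he] at hx
      revert hx
      cases (τ j).2 <;> decide
    · rintro ⟨j, hj⟩
      refine ⟨_, List.mem_map.2 ⟨j, List.mem_finRange j, rfl⟩, ?_⟩
      simp only [Fml.eval]
      revert hj
      cases x (τ j).1 <;> cases (τ j).2 <;> decide
  · rw [h2, List.map_map]
    have : (Fml.size ∘ fun j => Fml.lit (τ j).1 (!(τ j).2)) = fun _ : Fin C => 1 := rfl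
    rw [this]
    simp

/-- A nonempty set of at most `C` elements is the range of a map on `Fin C`. -/
private theorem gob_enum {n C : ℕ} (J : Finset (Fin n)) (hJ : J.Nonempty) (hC : J.card ≤ C) :
    ∃ σ : Fin C → Fin n, (∀ i ∈ J, ∃ j, σ j = i) := by
  obtain ⟨i0, _⟩ := hJ
  refine ⟨fun j => if h : j.1 < J.card then (J.equivFin.symm ⟨j.1, h⟩).1 else i0, ?_⟩
  intro i hi
  refine ⟨Fin.castLE hC (J.equivFin ⟨i, hi⟩), ?_⟩
  have h1 : (Fin.castLE hC (J.equivFin ⟨i, hi⟩)).1 < J.card := (J.equivFin ⟨i, hi⟩).2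
  beta_reduce
  rw [dif_pos h1]
  have h2 : (⟨(Fin.castLE hC (J.equivFin ⟨i, hi⟩)).1, h1⟩ : Fin J.card) = J.equivFin ⟨i, hi⟩ := rfl
  rw [h2, Equiv.symm_apply_apply]

theorem hard_good {n : ℕ} (hn : 0 < n) {A B : Set (Fin n → Bool)} {c : ℝ} (C : ℕ) (hC : 1 ≤ C)
    (hc : (C : ℝ) * (2 * n) ^ C + 2 < c) (h : HardQ A B c) :
    ∃ b ∈ B, ∀ J : Finset (Fin n), J.card ≤ C → ∃ a ∈ A, ∀ i ∈ J, a i = b i := by
  classical
  have hc0 : (0 : ℝ) ≤ (C : ℝ) * (2 * n) ^ C := by positivity
  obtain ⟨⟨a0, ha0⟩, ⟨b0, hb0⟩⟩ := hard_nonempty hn h (by linarith)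
  by_contra hcon
  push Not at hcon
  let D : Finset (Fin C → Fin n × Bool) :=
    univ.filter (fun τ => ∀ a ∈ A, ∃ j, a (τ j).1 ≠ (τ j).2)
  have key : ∀ b ∈ B, ∃ τ ∈ D, ∀ j, b (τ j).1 = (τ j).2 := by
    intro b hb
    obtain ⟨J, hJC, hJ⟩ := hcon b hb
    obtain ⟨i1, hi1, _⟩ := hJ a0 ha0
    obtain ⟨σ, hσ⟩ := gob_enum J ⟨i1, hi1⟩ hJC
    refine ⟨fun j => (σ j, b (σ j)), ?_, fun j => rfl⟩
    rw [mem_filter]
    refine ⟨mem_univ _, fun a ha => ?_⟩
    obtain ⟨i, hi, hne⟩ := hJ a ha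
    obtain ⟨j, rfl⟩ := hσ i hi
    exact ⟨j, hne⟩
  choose cl hcl1 hcl2 using fun τ : Fin C → Fin n × Bool => gob_clause hC τ
  obtain ⟨τ0, hτ0, _⟩ := key b0 hb0
  obtain ⟨φ, h1, h2⟩ := gob_and (D.toList.map cl) (by
    intro h0
    have h3 : cl τ0 ∈ D.toList.map cl := List.mem_map.2 ⟨τ0, mem_toList.2 hτ0, rfl⟩
    rw [h0] at h3
    exact absurd h3 List.not_mem_nil)
  have hsz : φ.size = D.card * C := by
    rw [h2, List.map_map]
    have : (Fml.size ∘ cl) = fun _ => C := by
      funext τ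
      exact hcl2 τ
    rw [this]
    simp
  have hD : D.card ≤ (2 * n) ^ C := by
    refine (card_le_univ D).trans (le_of_eq ?_)
    rw [Fintype.card_fun, Fintype.card_prod, Fintype.card_fin, Fintype.card_bool, Fintype.card_fin,
      mul_comm]
  have hle := h φ (fun a ha => by
      rw [h1]
      intro ψ hψ
      obtain ⟨τ, hτ, rfl⟩ := List.mem_map.1 hψ
      rw [hcl1]
      exact (mem_filter.1 (mem_toList.1 hτ)).2 a ha)
    (fun b hb => by
      rw [Bool.eq_false_iff]
      intro ht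
      obtain ⟨τ, hτ, hbτ⟩ := key b hb
      have h3 := (h1 b).1 ht (cl τ) (List.mem_map.2 ⟨τ, mem_toList.2 hτ, rfl⟩)
      rw [hcl1] at h3
      obtain ⟨j, hj⟩ := h3
      exact hj (hbτ j))
  have h4 : (φ.size : ℝ) ≤ (C : ℝ) * (2 * n) ^ C := by
    rw [hsz]
    have h5 : D.card * C ≤ C * (2 * n) ^ C := by
      rw [mul_comm C]
      exact Nat.mul_le_mul_right _ hD
    exact_mod_cast h5
  linarith

theorem hard_opens {n : ℕ} {A B : Set (Fin n → Bool)} {c : ℝ} (h : HardQ A B c)
    (J : Finset (Fin n)) :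
    ∃ p : Fin n → Bool, HardQ (onJ A J p) (onJ B J p) ((c + 2) / 2 ^ J.card - 2) := by
  classical
  induction J using Finset.induction_on with
  | empty =>
    refine ⟨fun _ => false, ?_⟩
    have e : ∀ S : Set (Fin n → Bool), onJ S ∅ (fun _ => false) = S := by
      intro S
      ext a
      simp [onJ]
    rw [e, e]
    simpa using h
  | insert i J hi ih =>
    obtain ⟨p, hp⟩ := ih
    obtain ⟨b, hb⟩ := hard_open hp i
    refine ⟨Function.update p i b, ?_⟩
    have e : ∀ S : Set (Fin n → Bool), onJ S (insert i J) (Function.update p i b) =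
        onJ (onJ S J p) {i} (fun _ => b) := by
      intro S
      ext a
      simp only [onJ, Set.mem_ofPred_eq, mem_insert, forall_eq_or_imp, mem_singleton, forall_eq,
        Function.update_self]
      constructor
      · rintro ⟨h1, h2, h3⟩
        refine ⟨⟨h1, fun k hk => ?_⟩, h2⟩
        have hki : k ≠ i := fun he => hi (by rw [← he]; exact hk)
        have h4 := h3 k hk
        rwa [Function.update_of_ne hki] at h4
      · rintro ⟨⟨h1, h3⟩, h2⟩
        refine ⟨h1, h2, fun k hk => ?_⟩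
        have hki : k ≠ i := fun he => hi (by rw [← he]; exact hk)
        rw [h3 k hk, Function.update_of_ne hki]
    rw [e, e, card_insert_of_notMem hi]
    have e2 : (c + 2) / 2 ^ (J.card + 1) - 2 = ((c + 2) / 2 ^ J.card - 2 - 2) / 2 := by
      rw [pow_succ]
      field_simp
      ring
    rw [e2]
    exact hb

end MP979
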