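import Pool.Agent.Lib.MP_979eef_lc.R.Key
import Pool.Agent.Lib.MP_979eef_lc.R.Gob

/-!
# MP_979eef_lc, one-sided protocols, module End: the end

`os_end`: `hard_opens` for `J`: `p` with `HardQ (onJ A J p) (onJ B J p) ((c + 2) / 2 ^ J.card - 2)`;
`2 ^ J.card ≤ 2 ^ u` and `hc` give hardness `> C (2 n)^C + 2`. `hard_good`: `b ∈ onJ B J p` such that
for `J'.card ≤ C` there is `a ∈ onJ A J p` with `a = b` on `J'` (and `a = p = b` on `J`). `V =
W.filter (ψ (inp w) = false) ∈ Fam S θ (t + 1)` (`fam_fun`, `hψ`); `Yb G inp W Y b ⊆ V` since `ψ` is false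
on `Y`; it has at least `M` elements (nonempty as `0 < M`; cast `hM` to ℕ:
`q ^ n ≤ 2 ^ T * (Yb ..).card`). `os_key` with `J0 = J`: `y ∈ Yb`, `w ∈ V` with `w = y` on `J` and
`G(w) ∈ A`. By `hX`, `inp w ∈ X`; `Outp` for `w` and `inp y ∈ Y`: either `ψ (inp w) = true`, but
`w ∈ V`; or `blk (inp w) i ≠ blk (inp y) i` for some `i ∈ J`, but `w i = y i` and `hb`.
-/

set_option autoImplicit false

namespace MP979

open Finset

variable {n : ℕ} {Z : Type} [Fintype Z] [DecidableEq Z]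

theorem os_end {G : Fin n → Z → Bool} {inp : (Fin n → Z) → (Fin n × Fin n → Bool)}
    {S : Finset ((Fin n → Z) → Bool)} {θ tm C T u t : ℕ} {X Y : Set (Fin n × Fin n → Bool)}
    {W : Finset (Fin n → Z)} {A B : Set (Fin n → Bool)} {M c : ℝ} {ψ : Fml (Fin n × Fin n)}
    {J : Finset (Fin n)} (hn : 0 < n) (hθ : 1 ≤ θ) (hG : ∀ t ≤ tm, Hits G θ (Fam S θ t))
    (hC : 1 ≤ C) (hT : 2 ^ T < θ ^ (C + 1)) (ht : t + u + 2 ≤ tm) (hu : J.card ≤ u)
    (hM0 : 0 < M) (hM : (Fintype.card Z : ℝ) ^ n ≤ 2 ^ T * M)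
    (hc : 2 ^ u * ((C : ℝ) * (2 * n) ^ C + 5) ≤ c)
    (hb : ∀ w w' i, w i = w' i → blk (inp w) i = blk (inp w') i)
    (hψ : (fun w => ψ.eval (inp w)) ∈ S)
    (hX : ∀ w ∈ W, (fun i => G i (w i)) ∈ A → inp w ∈ X)
    (h : Os G inp S θ Y W A B t M c) (ho : Outp G inp X Y W A ψ J) : False := by
  classical
  obtain ⟨p, hp⟩ := hard_opens h.hard J
  have hpow : (2 : ℝ) ^ J.card ≤ 2 ^ u := pow_le_pow_right₀ (by norm_num) hu
  have hpos : (0 : ℝ) < 2 ^ J.card := by positivity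
  have hK : (0 : ℝ) ≤ (C : ℝ) * (2 * n) ^ C := by positivity
  have hc' : (C : ℝ) * (2 * n) ^ C + 2 < (c + 2) / 2 ^ J.card - 2 := by
    have h1 : (C : ℝ) * (2 * n) ^ C + 4 < (c + 2) / 2 ^ J.card := by
      rw [lt_div_iff₀ hpos]
      have h2 : ((C : ℝ) * (2 * n) ^ C + 4) * 2 ^ J.card ≤ ((C : ℝ) * (2 * n) ^ C + 5) * 2 ^ u :=
        mul_le_mul (by linarith) hpow hpos.le (by linarith)
      nlinarith [hc, h2]
    linarith
  obtain ⟨b, hbB, hgood⟩ := hard_good hn C hC hc' hp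
  have hV : W.filter (fun w => ψ.eval (inp w) = false) ∈ Fam S θ (t + 1) := fam_fun h.fam hψ false
  have hYV : Yb G inp W Y b ⊆ W.filter (fun w => ψ.eval (inp w) = false) := by
    intro w hw
    rw [Yb, Finset.mem_filter] at hw
    rw [Finset.mem_filter]
    exact ⟨hw.1, ho.1 _ hw.2.2⟩
  have hbig := h.big b hbB.1
  have hne : (Yb G inp W Y b).Nonempty := by
    rw [← Finset.card_pos]
    have : (0 : ℝ) < ((Yb G inp W Y b).card : ℝ) := lt_of_lt_of_le hM0 hbig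
    exact_mod_cast this
  have hM' : Fintype.card Z ^ n ≤ 2 ^ T * (Yb G inp W Y b).card := by
    have h1 : (Fintype.card Z : ℝ) ^ n ≤ 2 ^ T * ((Yb G inp W Y b).card : ℝ) :=
      hM.trans (mul_le_mul_of_nonneg_left hbig (by positivity))
    exact_mod_cast h1
  have hb' : ∀ y ∈ Yb G inp W Y b, ∀ i, G i (y i) = b i := by
    intro y hy
    rw [Yb, Finset.mem_filter] at hy
    exact hy.2.1
  have hA : ∀ J' : Finset (Fin n), J'.card ≤ C →
      ∃ a ∈ A, (∀ i ∈ J', a i = b i) ∧ ∀ i ∈ J, a i = b i := by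
    intro J' hJ'
    obtain ⟨a, ha, hab⟩ := hgood J' hJ'
    exact ⟨a, ha.1, hab, fun i hi => (ha.2 i hi).trans (hbB.2 i hi).symm⟩
  obtain ⟨y, hy, w, hw, hwy, hwA⟩ := os_key hθ hG hV J (by omega) hYV hne hb' hM' hT hA
  rw [Finset.mem_filter] at hw
  rw [Yb, Finset.mem_filter] at hy
  rcases ho.2 w hw.1 hwA (hX w hw.1 hwA) (inp y) hy.2.2 with h1 | ⟨i, hi, h1⟩
  · rw [hw.2] at h1
    exact Bool.noConfusion h1
  · exact h1 (hb w y i (hwy i hi))

end MP979
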