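import Pool.Agent.Lib.MP_979eef_lc.Q.Exh
import Pool.Agent.Lib.MP_979eef_lc.R.Bal

/-!
# MP_979eef_lc, one-sided protocols, module Exi: existence of G

As `exists_hits` (Q/Exh.lean, copy its proof): the number of `G` which miss some `E` of the family is
less than `2 ^ (n q) / 2`, and by `unbal_card` the number of the unbalanced ones is at most
`4 n / q * 2 ^ (n q) ≤ 2 ^ (n q) / 4` (`16 n ≤ q`). So some `G` is neither.
-/

set_option autoImplicit false

namespace MP979

open Finset

variable {n : ℕ} {Z : Type} [Fintype Z] [DecidableEq Z]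

theorem exists_hits_bal (S : Finset ((Fin n → Z) → Bool)) (θ θh t : ℕ) (hn : 0 < n) (hθ : 1 ≤ θh)
    (hq : n * θh ≤ Fintype.card Z) (hq16 : 16 * n ≤ Fintype.card Z)
    (h : 2 * (((Fam S θ t).card : ℝ) * 2 ^ n * 2 ^ n *
      (2 * Real.exp (-(Fintype.card Z / (16 * n * θh))))) < 1) :
    ∃ G : Fin n → Z → Bool, Hits G θh (Fam S θ t) ∧
      ∀ i, ∀ b : Bool, Fintype.card Z ≤ 4 * ((univ : Finset Z).filter (fun z => G i z = b)).card := by
  classical
  by_contra hcon
  push Not at hcon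
  -- the functions which miss `E` outside `F` in the pattern `c`
  set Miss : Finset (Fin n → Z) → Finset (Fin n) → (Fin n → Bool) → Finset (Fin n → Z → Bool) :=
    fun E F c => (univ : Finset (Fin n → Z → Bool)).filter
      (fun G => ∀ w ∈ E, ∃ i, i ∉ F ∧ G i (w i) ≠ c i) with hMiss
  set bad : Finset (Finset (Fin n → Z) × Finset (Fin n) × (Fin n → Bool)) :=
    ((Fam S θ t) ×ˢ (univ : Finset (Finset (Fin n))) ×ˢ (univ : Finset (Fin n → Bool))).filter
      (fun x => x.1.Nonempty ∧ Dense θh x.1 x.2.1) with hbad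
  set UB : Finset (Fin n → Z → Bool) := (univ : Finset (Fin n → Z → Bool)).filter (fun G => ∃ i, ∃ b : Bool,
    4 * ((univ : Finset Z).filter (fun z => G i z = b)).card < Fintype.card Z) with hUB
  have hcover : (univ : Finset (Fin n → Z → Bool)) ⊆ bad.biUnion (fun x => Miss x.1 x.2.1 x.2.2) ∪ UB := by
    intro G _
    rw [mem_union]
    by_cases hG : Hits G θh (Fam S θ t)
    · right
      rw [hUB, mem_filter]
      exact ⟨mem_univ _, hcon G hG⟩
    left
    have h1 := hG
    unfold Hits at h1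
    push Not at h1
    obtain ⟨E, hE, hEne, F, hF, c, hc⟩ := h1
    rw [mem_biUnion]
    refine ⟨(E, F, c), ?_, ?_⟩
    · rw [hbad, mem_filter]
      exact ⟨mem_product.2 ⟨hE, mem_product.2 ⟨mem_univ _, mem_univ _⟩⟩, hEne, hF⟩
    · simp only [hMiss]
      rw [mem_filter]
      exact ⟨mem_univ _, hc⟩
  have hM : ∀ x ∈ bad, ((Miss x.1 x.2.1 x.2.2).card : ℝ) ≤
      2 ^ (n * Fintype.card Z) * (2 * Real.exp (-(Fintype.card Z / (16 * n * θh)))) := by
    intro x hx
    rw [hbad, mem_filter] at hx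
    exact miss_card θh hθ x.1 hx.2.1 x.2.1 hx.2.2 hn hq x.2.2
  have hbadc : (bad.card : ℝ) ≤ (Fam S θ t).card * 2 ^ n * 2 ^ n := by
    have h1 : bad.card ≤ (Fam S θ t).card * (2 ^ n * 2 ^ n) := by
      refine (card_filter_le _ _).trans ?_
      rw [card_product, card_product, card_univ, card_univ, Fintype.card_finset, Fintype.card_fin,
        Fintype.card_fun, Fintype.card_fin, Fintype.card_bool]
    have h2 : (bad.card : ℝ) ≤ (((Fam S θ t).card * (2 ^ n * 2 ^ n) : ℕ) : ℝ) := by exact_mod_cast h1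
    push_cast at h2
    rw [mul_assoc]
    exact h2
  set ex : ℝ := Real.exp (-(Fintype.card Z / (16 * n * θh))) with hex
  have hex0 : 0 < ex := Real.exp_pos _
  have hall : ((2 : ℝ) ^ (n * Fintype.card Z)) ≤ bad.card * (2 ^ (n * Fintype.card Z) * (2 * ex)) + UB.card := by
    have h1 := (card_le_card hcover).trans ((card_union_le _ _).trans (Nat.add_le_add_right card_biUnion_le _))
    rw [card_univ, Fintype.card_fun, Fintype.card_fun, Fintype.card_fin, Fintype.card_bool, ← pow_mul,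
      mul_comm (Fintype.card Z) n] at h1
    have h2 : ((2 ^ (n * Fintype.card Z) : ℕ) : ℝ) ≤
        ((∑ x ∈ bad, (Miss x.1 x.2.1 x.2.2).card + UB.card : ℕ) : ℝ) := by exact_mod_cast h1
    push_cast at h2
    refine h2.trans (add_le_add_left ((sum_le_sum hM).trans ?_) _)
    rw [sum_const, nsmul_eq_mul]
  have hpos : (0 : ℝ) < 2 ^ (n * Fintype.card Z) := by positivity
  have h3 : (bad.card : ℝ) * (2 ^ (n * Fintype.card Z) * (2 * ex)) ≤
      ((Fam S θ t).card * 2 ^ n * 2 ^ n * (2 * ex)) * 2 ^ (n * Fintype.card Z) := by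
    have h4 : 0 ≤ 2 ^ (n * Fintype.card Z) * (2 * ex) := by positivity
    have h5 := mul_le_mul_of_nonneg_right hbadc h4
    calc _ ≤ _ := h5
      _ = _ := by ring
  have h6 : ((Fam S θ t).card * 2 ^ n * 2 ^ n * (2 * ex)) * 2 ^ (n * Fintype.card Z) <
      1 / 2 * 2 ^ (n * Fintype.card Z) := mul_lt_mul_of_pos_right (by linarith) hpos
  have h7 := unbal_card (n := n) (Z := Z)
  have hn' : (1 : ℝ) ≤ n := by exact_mod_cast hn
  have hq' : (16 : ℝ) * n ≤ Fintype.card Z := by exact_mod_cast hq16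
  have hq0 : (0 : ℝ) < Fintype.card Z := by linarith
  have h8 : (UB.card : ℝ) * Fintype.card Z ≤ (2 ^ (n * Fintype.card Z) / 4) * Fintype.card Z := by
    refine h7.trans ?_
    nlinarith
  have h9 : (UB.card : ℝ) ≤ 2 ^ (n * Fintype.card Z) / 4 := le_of_mul_le_mul_right h8 hq0
  linarith

end MP979
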