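import Mathlib

/-!
# MP_979eef_lc, one-sided protocols, module Paa: parameters

`ρ = ε / 2`, `C = ⌈9 / η⌉`. `⌊η n⌋ ≥ η n / 2` for `n ≥ 2 / η`, so `(C + 1) ⌊η n⌋ > 4 n`. A polynomial in
`n` is at most `2 ^ (ε n / 2)` for large `n` (see Q/PaC.lean, Q/PaB.lean for such arguments).
`par_two`: if `ε ≥ 1` the floor on the left is `0` and `2 n ≤ 2 ^ (n / 2)`; if `ε < 1` then
`2 n * 2 ^ ((1 - ε) n) ≤ 2 ^ ((1 - δ0) n)` because `2 n ≤ 2 ^ (δ0 n)`, `ε - δ0 ≥ δ0`.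
-/

set_option autoImplicit false

namespace MP979

private theorem paa_ev (A B : ℝ) (k : ℕ) (κ : ℝ) (hκ : 0 < κ) :
    ∀ᶠ n : ℕ in Filter.atTop, A * (n : ℝ) ^ k + B ≤ (2 : ℝ) ^ (κ * n) := by
  set r : ℝ := (2 : ℝ) ^ κ with hr
  have hr1 : 1 < r := Real.one_lt_rpow (by norm_num) hκ
  have h1 := (tendsto_pow_const_div_const_pow_of_one_lt k hr1).const_mul A
  have h2 := (tendsto_pow_const_div_const_pow_of_one_lt 0 hr1).const_mul B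
  have h3 := h1.add h2
  rw [mul_zero, mul_zero, add_zero] at h3
  filter_upwards [h3.eventually (gt_mem_nhds one_pos)] with n hn
  have hrn : 0 < r ^ n := pow_pos (by linarith) n
  have e : (2 : ℝ) ^ (κ * n) = r ^ n := by
    rw [hr, Real.rpow_mul (by norm_num), Real.rpow_natCast]
  rw [e]
  have e2 : A * ((n : ℝ) ^ k / r ^ n) + B * ((n : ℝ) ^ 0 / r ^ n) = (A * (n : ℝ) ^ k + B) / r ^ n := by
    rw [pow_zero]
    ring
  rw [e2, div_lt_one hrn] at hn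
  exact hn.le

theorem par_one (ε η : ℝ) (hε : 0 < ε) (hη : 0 < η) : ∃ (ρ : ℝ) (C n₀ : ℕ), 0 < ρ ∧ ρ ≤ 1 ∧
    1 ≤ C ∧ ∀ n ≥ n₀, 2 ^ (4 * n) < (2 ^ ⌊η * n⌋₊) ^ (C + 1) ∧
      ∀ u : ℕ, (u : ℝ) ≤ ρ * n → (2 : ℝ) ^ u * ((C : ℝ) * (2 * n) ^ C + 5) ≤ 2 ^ (ε * n) := by
  set C : ℕ := ⌈9 / η⌉₊ with hC
  have hC9 : 9 / η ≤ C := Nat.le_ceil _
  have hC1 : 1 ≤ C := by
    rw [hC]
    exact Nat.one_le_iff_ne_zero.2 (Nat.ceil_pos.2 (by positivity)).ne'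
  obtain ⟨n1, hn1⟩ := Filter.eventually_atTop.1
    (paa_ev ((C : ℝ) * 2 ^ C) 5 C (ε / 2) (by positivity))
  refine ⟨min (ε / 2) 1, C, max n1 (max 1 ⌈2 / η⌉₊), lt_min (by positivity) one_pos,
    min_le_right _ _, hC1, fun n hn => ⟨?_, ?_⟩⟩
  · have hn1' : 1 ≤ n := ((le_max_left _ _).trans (le_max_right _ _)).trans hn
    have hn2 : ⌈2 / η⌉₊ ≤ n := ((le_max_right _ _).trans (le_max_right _ _)).trans hn
    have hn3 : (1 : ℝ) ≤ n := by exact_mod_cast hn1'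
    have hnη : 2 ≤ η * n := by
      have h2 : 2 / η ≤ n := (Nat.le_ceil _).trans (by exact_mod_cast hn2)
      rw [div_le_iff₀ hη] at h2
      linarith
    set t0 : ℕ := ⌊η * n⌋₊ with ht0
    have ht : η * n / 2 ≤ t0 := by
      have := Nat.lt_floor_add_one (η * n)
      rw [← ht0] at this
      linarith
    rw [← pow_mul]
    refine Nat.pow_lt_pow_right (by norm_num) ?_
    have h1 : (4 : ℝ) * n < t0 * (C + 1) := by
      have h2 : η * n / 2 * (9 / η) ≤ t0 * C :=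
        mul_le_mul ht hC9 (by positivity) (Nat.cast_nonneg _)
      have h3 : η * n / 2 * (9 / η) = 9 / 2 * n := by
        field_simp
      have h4 : (0 : ℝ) ≤ t0 := Nat.cast_nonneg _
      nlinarith
    exact_mod_cast h1
  · intro u hu
    have h1 := hn1 n ((le_max_left _ _).trans hn)
    have hn0 : (0 : ℝ) ≤ n := Nat.cast_nonneg n
    have h2 : (u : ℝ) ≤ ε / 2 * n := hu.trans (mul_le_mul_of_nonneg_right (min_le_left _ _) hn0)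
    have h3 : (2 : ℝ) ^ u ≤ 2 ^ (ε / 2 * n) := by
      rw [← Real.rpow_natCast]
      exact Real.rpow_le_rpow_of_exponent_le (by norm_num) h2
    have h4 : (C : ℝ) * (2 * n) ^ C + 5 ≤ 2 ^ (ε / 2 * n) := by
      have e : (C : ℝ) * (2 * n) ^ C + 5 = (C : ℝ) * 2 ^ C * n ^ C + 5 := by
        rw [mul_pow]
        ring
      rw [e]
      exact h1
    have h5 : (2 : ℝ) ^ (ε * n) = 2 ^ (ε / 2 * n) * 2 ^ (ε / 2 * n) := by
      rw [← Real.rpow_add (by norm_num)]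
      congr 1
      ring
    rw [h5]
    exact mul_le_mul h3 h4 (by positivity) (by positivity)

/-- `a` with `2 ^ a ≤ 2 n` costs nothing. -/
theorem par_two (ε δ0 : ℝ) (hε : 0 < ε) (hδ : 0 < δ0) (h1 : 2 * δ0 ≤ 1) (hε2 : 2 * δ0 ≤ ε) :
    ∃ n₀ : ℕ, ∀ n ≥ n₀, ∀ a : ℕ, 2 ^ a ≤ 2 * n →
      2 ^ (a + ⌊(1 - ε) * n⌋₊) ≤ ⌊(2 : ℝ) ^ ((1 - δ0) * n)⌋₊ := by
  obtain ⟨n1, hn1⟩ := Filter.eventually_atTop.1 (paa_ev 2 0 1 δ0 hδ)
  refine ⟨n1, fun n hn a ha => ?_⟩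
  have h2 := hn1 n hn
  rw [pow_one, add_zero] at h2
  have hn0 : (0 : ℝ) ≤ n := Nat.cast_nonneg n
  have ha' : (2 : ℝ) ^ a ≤ 2 * n := by exact_mod_cast ha
  have h3 : ((⌊(1 - ε) * n⌋₊ : ℕ) : ℝ) ≤ (1 - 2 * δ0) * n := by
    have h4 : ⌊(1 - ε) * n⌋₊ ≤ ⌊(1 - 2 * δ0) * n⌋₊ :=
      Nat.floor_le_floor (mul_le_mul_of_nonneg_right (by linarith) hn0)
    have h5 : ((⌊(1 - 2 * δ0) * n⌋₊ : ℕ) : ℝ) ≤ (1 - 2 * δ0) * n :=
      Nat.floor_le (mul_nonneg (by linarith) hn0)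
    exact le_trans (by exact_mod_cast h4) h5
  apply Nat.le_floor
  push_cast
  rw [pow_add]
  have h6 : (2 : ℝ) ^ ⌊(1 - ε) * n⌋₊ ≤ 2 ^ ((1 - 2 * δ0) * n) := by
    rw [← Real.rpow_natCast]
    exact Real.rpow_le_rpow_of_exponent_le (by norm_num) h3
  have h7 : (2 : ℝ) ^ ((1 - δ0) * n) = 2 ^ (δ0 * n) * 2 ^ ((1 - 2 * δ0) * n) := by
    rw [← Real.rpow_add (by norm_num)]
    congr 1
    ring
  rw [h7]
  exact mul_le_mul (ha'.trans h2) h6 (by positivity) (by positivity)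

end MP979
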