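import Pool.Agent.Lib.MP_979eef_lc.R.Def

/-!
# MP_979eef_lc, one-sided protocols, module Swa: exchanging the players

`run_swap`: `P.swap.run x y = P.run y x` (induction). `Fml.dual`, `Fml.eval_dual`, `Fml.size_dual` are in
the library (Pool/Agent/Lib/MP_979eef_lc/Fml.lean or near; see Q/Upp.lean for their use).
-/

set_option autoImplicit false

namespace MP979

open Finset

private theorem run_swap {ι : Type} (P : Prot ι) (x y : ι → Bool) :
    P.swap.run x y = P.run y x := by
  induction P with
  | leaf i => rfl
  | alice m P Q hP hQ => simp only [Prot.swap, Prot.run, hP, hQ]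
  | bob m P Q hP hQ => simp only [Prot.swap, Prot.run, hP, hQ]

theorem depth_swap {ι : Type} (P : Prot ι) : P.swap.depth = P.depth := by
  induction P with
  | leaf i => rfl
  | alice m P Q hP hQ => simp only [Prot.swap, Prot.depth, hP, hQ]
  | bob m P Q hP hQ => simp only [Prot.swap, Prot.depth, hP, hQ]

theorem correct_swap {ι : Type} (P : Prot ι) (X Y : Set (ι → Bool)) (h : P.Correct X Y) :
    P.swap.Correct Y X := by
  intro y hy x hx
  rw [run_swap]
  exact (h x hx y hy).symm

/-- the protocol with the players exchanged solves the game of the negated function -/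
theorem solves_swap {n : ℕ} (P : Prot (Fin n × Fin n)) (f g : (Fin n → Bool) → Bool)
    (h : P.Solves (comp f g)) : P.swap.Solves (comp (fun a => ! f a) g) := by
  have h1 := correct_swap P _ _ h
  intro x hx y hy
  refine h1 x ?_ y ?_
  · have h2 : (! comp f g x) = true := hx
    rwa [Bool.not_eq_true'] at h2
  · have h2 : (! comp f g y) = false := hy
    rwa [Bool.not_eq_false'] at h2

theorem fml_neg {n : ℕ} (f : (Fin n → Bool) → Bool) (c : ℝ)
    (hf : ∀ φ : Fml (Fin n), (∀ a, φ.eval a = f a) → c ≤ φ.size) :
    ∀ φ : Fml (Fin n), (∀ a, φ.eval a = ! f a) → c ≤ φ.size := by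
  intro φ hφ
  have h1 := hf φ.dual (fun a => by rw [Fml.eval_dual, hφ a, Bool.not_not])
  rwa [Fml.size_dual] at h1

end MP979
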