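import Pool.Agent.Lib.MP_979eef_lc.R.SzS
import Pool.Agent.Lib.MP_979eef_lc.R.End
import Pool.Agent.Lib.MP_979eef_lc.Q.Si

/-!
# MP_979eef_lc, one-sided protocols, module SzM: the induction for the size bound

`ol_leaves`: suppose `P.leaves ≤ s'`. `hard_of_not_sep` and `os_end` (R/End.lean) with `u = 0`-type
bound: `Thr ≥ 2 ^ v * (C (2 n)^C + 5) ≥ C (2 n)^C + 5`, take `u := 0`, `J := ∅`. If `X` or `Y` is empty
take `ψ` = the false formula (its function is in `S` by `hS`: size 2, so `2 ≤ s'`), else `ψ` of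
`exists_fml_size` (Q/Si.lean), `ψ.size ≤ P.leaves ≤ s'`. `Outp G inp X Y W A ψ ∅` holds. `os_end` gives
`False`.
`ol_inBlocks`: `os_end` with the false formula, `J`, `u := v` (as case (i) of `os_main`, R/Mai.lean).
`os_size`: induction on `d`. Write `u = P.leaves / 2 ^ D`. If `SepR A B Thr` holds, done
(`2 ^ Q * Thr * max 1 _ ≥ Thr`). Else `P.leaves > s' ≥ 2 ^ D` by `ol_leaves`, so `u ≥ 1`; `P` is not a leaf.
`P = bob m P1 P0` (`P1` for the bit true): `ol_bob` with `α1 = P1.leaves / P.leaves`, `α0 = P0.leaves /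
P.leaves`; the hypothesis on `M` passes to the children; the induction hypotheses and `sep_B` give
`SepR A B (2^Q * Thr * (max 1 (d * u1) + max 1 (d * u0)))`, `u1 + u0 = u`, `d + 1` instead of `d` in the
goal: `max 1 (d u1) + max 1 (d u0) ≤ (d + 1) u` since `u ≥ 1`, `d ≥ 1`.
`P = alice m P1 P0`: (i) in-block: `ol_inBlocks`, impossible. (ii) `0 = a' + 1`: impossible.
(iii) `m ∈ 𝓗`: `ol_fun` with the same weights, `sep_B`; `m :: H` is constant on the new `W`.
(iv) `L`: `ol_open` with `s = 2 ^ (Q - L.length) * Thr * ((d + 1) u)`; inside: `ol_val` (by `MsgH`, `hg`,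
constancy of `H ++ L` on `W'`), induction hypotheses with `Q - L.length` (the hypothesis on `M`:
`M / 2 ^ L.length`), `sep_A`.
-/

set_option autoImplicit false

namespace MP979

open Finset

private theorem szm_ff {n : ℕ} (hn : 0 < n) :
    ∃ ψ : Fml (Fin n × Fin n), ψ.size = 2 ∧ ∀ x, ψ.eval x = false := by
  refine ⟨.and (.lit (⟨0, hn⟩, ⟨0, hn⟩) true) (.lit (⟨0, hn⟩, ⟨0, hn⟩) false), rfl, fun x => ?_⟩
  simp only [Fml.eval]
  cases x (⟨0, hn⟩, ⟨0, hn⟩) <;> rfl

private theorem szm_pos {ι : Type} (P : Prot ι) : 1 ≤ P.leaves := by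
  induction P with
  | leaf i => exact le_rfl
  | alice m P P' h1 h2 => simp only [Prot.leaves]; omega
  | bob m P P' h1 h2 => simp only [Prot.leaves]; omega

private theorem szm_real {a x y : ℝ} (ha : 0 ≤ a) (hx : 0 ≤ x) (hy : 0 ≤ y) (h : 1 ≤ x + y) :
    max 1 ((a + 1) * x) + max 1 ((a + 1) * y) ≤ (a + 1 + 1) * (x + y) := by
  have h1 : 0 ≤ a * x := mul_nonneg ha hx
  have h2 : 0 ≤ a * y := mul_nonneg ha hy
  rcases max_cases 1 ((a + 1) * x) with ⟨e1, _⟩ | ⟨e1, _⟩ <;>
  rcases max_cases 1 ((a + 1) * y) with ⟨e2, _⟩ | ⟨e2, _⟩ <;> rw [e1, e2] <;> nlinarith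

variable {n : ℕ} {Z : Type} [Fintype Z] [DecidableEq Z]
  {G : Fin n → Z → Bool} {inp : (Fin n → Z) → (Fin n × Fin n → Bool)}
  {S : Finset ((Fin n → Z) → Bool)} {θ tm C T v D s' t : ℕ} {g : (Fin n → Bool) → Bool}
  {𝓗 : Finset ((Fin n × Fin n → Bool) → Bool)} {Thr M : ℝ}
  {X Y : Set (Fin n × Fin n → Bool)} {W : Finset (Fin n → Z)} {A B : Set (Fin n → Bool)}
  {P : Prot (Fin n × Fin n)}

theorem ol_leaves (hn : 0 < n) (hθ : 1 ≤ θ) (hG : ∀ t ≤ tm, Hits G θ (Fam S θ t))
    (hC : 1 ≤ C) (hT : 2 ^ T < θ ^ (C + 1))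
    (hb : ∀ w w' i, w i = w' i → blk (inp w) i = blk (inp w') i)
    (hS : ∀ φ : Fml (Fin n × Fin n), φ.size ≤ s' → (fun w => φ.eval (inp w)) ∈ S) (hs2 : 2 ≤ s')
    (hThr : 2 ^ v * ((C : ℝ) * (2 * n) ^ C + 5) ≤ Thr) (ht : t + 2 ≤ tm) (hM0 : 0 < M)
    (hM : (Fintype.card Z : ℝ) ^ n ≤ 2 ^ T * M) (h : Ol G inp S θ X Y W A B t M)
    (hP : P.Correct X Y) (hsep : ¬ SepR A B Thr) : s' < P.leaves := by
  by_contra hcon
  have hle : P.leaves ≤ s' := not_lt.1 hcon
  have hK : (0 : ℝ) ≤ (C : ℝ) * (2 * n) ^ C := by positivity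
  have hThr' : 2 ^ 0 * ((C : ℝ) * (2 * n) ^ C + 5) ≤ Thr := by
    refine le_trans (mul_le_mul_of_nonneg_right ?_ (by linarith)) hThr
    exact pow_le_pow_right₀ (by norm_num) (Nat.zero_le v)
  have hos : Os G inp S θ Y W A B t M Thr := ⟨h.big, h.fam, hard_of_not_sep hsep⟩
  obtain ⟨ψ, hψs, hout⟩ : ∃ ψ : Fml (Fin n × Fin n), ψ.size ≤ s' ∧ Outp G inp X Y W A ψ ∅ := by
    obtain ⟨ψ0, h0, h0'⟩ := szm_ff hn
    by_cases hX : X.Nonempty
    · by_cases hY : Y.Nonempty
      · obtain ⟨φ, h1, h3, h4⟩ := exists_fml_size P hX hY hP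
        exact ⟨φ, h1.trans hle, h4, fun w _ _ hw y _ => Or.inl (h3 _ hw)⟩
      · exact ⟨ψ0, by omega, fun y _ => h0' y, fun w _ _ _ y hy => absurd ⟨y, hy⟩ hY⟩
    · exact ⟨ψ0, by omega, fun y _ => h0' y, fun w _ _ hw => absurd ⟨_, hw⟩ hX⟩
  exact os_end (u := 0) (J := ∅) hn hθ hG hC hT (by omega) (by simp) hM0 hM hThr' hb (hS ψ hψs)
    h.inA hos hout

theorem ol_inBlocks (hn : 0 < n) (hθ : 1 ≤ θ) (hG : ∀ t ≤ tm, Hits G θ (Fam S θ t))
    (hC : 1 ≤ C) (hT : 2 ^ T < θ ^ (C + 1))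
    (hb : ∀ w w' i, w i = w' i → blk (inp w) i = blk (inp w') i)
    (hS : ∀ φ : Fml (Fin n × Fin n), φ.size ≤ s' → (fun w => φ.eval (inp w)) ∈ S) (hs2 : 2 ≤ s')
    (hThr : 2 ^ v * ((C : ℝ) * (2 * n) ^ C + 5) ≤ Thr) (ht : t + v + 2 ≤ tm) (hM0 : 0 < M)
    (hM : (Fintype.card Z : ℝ) ^ n ≤ 2 ^ T * M) (h : Ol G inp S θ X Y W A B t M)
    (hP : P.Correct X Y) (hsep : ¬ SepR A B Thr) {J : Finset (Fin n)} (hJ : J.card ≤ v)
    (hj : InBlocks J P) : False := by
  obtain ⟨ψ0, h0, h0'⟩ := szm_ff hn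
  have hos : Os G inp S θ Y W A B t M Thr := ⟨h.big, h.fam, hard_of_not_sep hsep⟩
  have hout : Outp G inp X Y W A ψ0 J := by
    refine ⟨fun y _ => h0' y, ?_⟩
    intro w _ _ hw y hy
    right
    refine ⟨(P.run (inp w) y).1, run_inBlocks hj _ _, ?_⟩
    intro he
    apply hP _ hw y hy
    exact congrFun he (P.run (inp w) y).2
  exact os_end (u := v) hn hθ hG hC hT ht hJ hM0 hM hThr hb (hS ψ0 (by omega)) h.inA hos hout

theorem os_size (hn : 0 < n) (hθ : 1 ≤ θ) (hG : ∀ t ≤ tm, Hits G θ (Fam S θ t))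
    (hC : 1 ≤ C) (hT : 2 ^ T < θ ^ (C + 1))
    (hg : ∀ w i, g (blk (inp w) i) = G i (w i))
    (hb : ∀ w w' i, w i = w' i → blk (inp w) i = blk (inp w') i)
    (hS : ∀ φ : Fml (Fin n × Fin n), φ.size ≤ s' → (fun w => φ.eval (inp w)) ∈ S) (hs2 : 2 ≤ s')
    (hS' : ∀ φ ∈ 𝓗, (fun w => φ (inp w)) ∈ S) (hD : 2 ^ D ≤ s')
    (hThr : 2 ^ v * ((C : ℝ) * (2 * n) ^ C + 5) ≤ Thr) (d : ℕ) :
    ∀ (Q : ℕ) (H : List ((Fin n × Fin n → Bool) → Bool)) (P : Prot (Fin n × Fin n))
      (X Y : Set (Fin n × Fin n → Bool)) (W : Finset (Fin n → Z)) (A B : Set (Fin n → Bool))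
      (t : ℕ) (M : ℝ), P.depth ≤ d → OneSided g 𝓗 v d 0 Q H P → P.Correct X Y →
      (∀ h ∈ H, ∀ w ∈ W, ∀ w' ∈ W, h (inp w) = h (inp w')) →
      Ol G inp S θ X Y W A B t M → 0 < M →
      (Fintype.card Z : ℝ) ^ n * 2 ^ Q * P.leaves ≤ 2 ^ T * M → t + d + Q + v + 2 ≤ tm →
      SepR A B (2 ^ Q * Thr * max (1 : ℝ) (((d : ℝ) + 1) * (P.leaves : ℝ) / 2 ^ D)) := by
  have hK : (0 : ℝ) ≤ (C : ℝ) * (2 * n) ^ C := by positivity
  have hThr0 : 0 ≤ Thr := by
    refine le_trans ?_ hThr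
    positivity
  -- the trivial bound
  have hbase : ∀ (Q d : ℕ) (P : Prot (Fin n × Fin n)) (A B : Set (Fin n → Bool)), SepR A B Thr →
      SepR A B (2 ^ Q * Thr * max (1 : ℝ) (((d : ℝ) + 1) * (P.leaves : ℝ) / 2 ^ D)) := by
    intro Q d P A B hs
    refine sep_mono hs ?_
    have h1 : (1 : ℝ) ≤ 2 ^ Q := one_le_pow₀ (by norm_num)
    have h2 : (1 : ℝ) ≤ max (1 : ℝ) (((d : ℝ) + 1) * (P.leaves : ℝ) / 2 ^ D) := le_max_left _ _
    calc Thr = 1 * Thr * 1 := by ring
      _ ≤ 2 ^ Q * Thr * max (1 : ℝ) (((d : ℝ) + 1) * (P.leaves : ℝ) / 2 ^ D) :=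
        mul_le_mul (mul_le_mul_of_nonneg_right h1 hThr0) h2 (by norm_num) (by positivity)
  have hMM : ∀ (Q : ℕ) (P : Prot (Fin n × Fin n)) (M : ℝ),
      (Fintype.card Z : ℝ) ^ n * 2 ^ Q * P.leaves ≤ 2 ^ T * M →
      (Fintype.card Z : ℝ) ^ n ≤ 2 ^ T * M := by
    intro Q P M h
    have h1 : (1 : ℝ) ≤ 2 ^ Q := one_le_pow₀ (by norm_num)
    have h2 : (1 : ℝ) ≤ P.leaves := by exact_mod_cast szm_pos P
    have h3 : (1 : ℝ) ≤ 2 ^ Q * P.leaves := one_le_mul_of_one_le_of_one_le h1 h2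
    calc (Fintype.card Z : ℝ) ^ n = (Fintype.card Z : ℝ) ^ n * 1 := by ring
      _ ≤ (Fintype.card Z : ℝ) ^ n * (2 ^ Q * P.leaves) :=
        mul_le_mul_of_nonneg_left h3 (by positivity)
      _ = (Fintype.card Z : ℝ) ^ n * 2 ^ Q * P.leaves := by ring
      _ ≤ 2 ^ T * M := h
  induction d with
  | zero =>
    intro Q H P X Y W A B t M hd _ hP _ hol hM0 hM htm
    by_cases hsep : SepR A B Thr
    · exact hbase Q 0 P A B hsep
    · exfalso
      have h1 := ol_leaves hn hθ hG hC hT hb hS hs2 hThr (by omega) hM0 (hMM Q P M hM) hol hP hsep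
      have h2 : P.leaves = 1 := by
        cases P with
        | leaf i => rfl
        | alice m P P' => simp [Prot.depth] at hd
        | bob m P P' => simp [Prot.depth] at hd
      omega
  | succ d ih =>
    intro Q H P X Y W A B t M hd hone hP hH hol hM0 hM htm
    by_cases hsep : SepR A B Thr
    · exact hbase Q (d + 1) P A B hsep
    have hlv := ol_leaves hn hθ hG hC hT hb hS hs2 hThr (by omega) hM0 (hMM Q P M hM) hol hP hsep
    have h2D : (0 : ℝ) < 2 ^ D := by positivity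
    have hu : (1 : ℝ) ≤ (P.leaves : ℝ) / 2 ^ D := by
      rw [one_le_div h2D]
      have : 2 ^ D ≤ P.leaves := by omega
      exact_mod_cast this
    -- the two children
    have hmain : ∀ (q : ℕ) (P1 P0 : Prot (Fin n × Fin n)), P.leaves = P1.leaves + P0.leaves →
        2 ^ q * Thr * max (1 : ℝ) (((d : ℝ) + 1) * (P1.leaves : ℝ) / 2 ^ D) +
        2 ^ q * Thr * max (1 : ℝ) (((d : ℝ) + 1) * (P0.leaves : ℝ) / 2 ^ D) ≤
        2 ^ q * Thr * (((d : ℝ) + 1 + 1) * ((P.leaves : ℝ) / 2 ^ D)) := by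
      intro q P1 P0 hsum
      have h1 : (P.leaves : ℝ) / 2 ^ D = (P1.leaves : ℝ) / 2 ^ D + (P0.leaves : ℝ) / 2 ^ D := by
        rw [hsum]
        push_cast
        ring
      have h2 := szm_real (a := (d : ℝ)) (x := (P1.leaves : ℝ) / 2 ^ D)
        (y := (P0.leaves : ℝ) / 2 ^ D) (by positivity) (by positivity) (by positivity)
        (by rw [← h1]; exact hu)
      rw [← h1, ← mul_div_assoc, ← mul_div_assoc] at h2
      rw [← mul_add]
      refine mul_le_mul_of_nonneg_left ?_ (by positivity)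
      exact h2
    have hgoal : ∀ (s : ℝ), s ≤ 2 ^ Q * Thr * (((d : ℝ) + 1 + 1) * ((P.leaves : ℝ) / 2 ^ D)) →
        SepR A B s → SepR A B (2 ^ Q * Thr *
          max (1 : ℝ) ((((d + 1 : ℕ) : ℝ) + 1) * (P.leaves : ℝ) / 2 ^ D)) := by
      intro s hs hS
      refine sep_mono hS (hs.trans ?_)
      refine mul_le_mul_of_nonneg_left ?_ (by positivity)
      refine le_trans (le_of_eq ?_) (le_max_right _ _)
      push_cast
      ring
    have hdep : ∀ P1 P0 : Prot (Fin n × Fin n), max P1.depth P0.depth + 1 ≤ d + 1 →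
        P1.depth ≤ d ∧ P0.depth ≤ d := by
      intro P1 P0 h
      have h1 := le_max_left P1.depth P0.depth
      have h2 := le_max_right P1.depth P0.depth
      omega
    cases P with
    | leaf i =>
      exfalso
      have : (Prot.leaf i : Prot (Fin n × Fin n)).leaves = 1 := rfl
      omega
    | bob m P1 P0 =>
      obtain ⟨ho1, ho0⟩ := hone
      obtain ⟨hd1, hd0⟩ := hdep P1 P0 hd
      have hsum : (Prot.bob m P1 P0).leaves = P1.leaves + P0.leaves := rfl
      have hp1 : (0 : ℝ) < P1.leaves := by exact_mod_cast szm_pos P1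
      have hp0 : (0 : ℝ) < P0.leaves := by exact_mod_cast szm_pos P0
      have hps : (0 : ℝ) < P1.leaves + P0.leaves := by linarith
      obtain ⟨B1, B0, hB, hol1, hol0⟩ := ol_bob hol m
        (α1 := (P1.leaves : ℝ) / (P1.leaves + P0.leaves))
        (α0 := (P0.leaves : ℝ) / (P1.leaves + P0.leaves)) (by field_simp)
      have hc := Correct.bob1 hP
      have hM' : (Fintype.card Z : ℝ) ^ n * 2 ^ Q * (P1.leaves + P0.leaves) ≤ 2 ^ T * M := by
        rw [hsum] at hM
        push_cast at hM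
        exact hM
      have hM1 : (Fintype.card Z : ℝ) ^ n * 2 ^ Q * P1.leaves ≤
          2 ^ T * ((P1.leaves : ℝ) / (P1.leaves + P0.leaves) * M) := by
        have h1 := mul_le_mul_of_nonneg_left hM' (div_pos hp1 hps).le
        have h2 : (P1.leaves : ℝ) / (P1.leaves + P0.leaves) *
            ((Fintype.card Z : ℝ) ^ n * 2 ^ Q * (P1.leaves + P0.leaves)) =
            (Fintype.card Z : ℝ) ^ n * 2 ^ Q * P1.leaves := by
          field_simp
        rw [h2] at h1
        refine h1.trans (le_of_eq ?_)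
        ring
      have hM2 : (Fintype.card Z : ℝ) ^ n * 2 ^ Q * P0.leaves ≤
          2 ^ T * ((P0.leaves : ℝ) / (P1.leaves + P0.leaves) * M) := by
        have h1 := mul_le_mul_of_nonneg_left hM' (div_pos hp0 hps).le
        have h2 : (P0.leaves : ℝ) / (P1.leaves + P0.leaves) *
            ((Fintype.card Z : ℝ) ^ n * 2 ^ Q * (P1.leaves + P0.leaves)) =
            (Fintype.card Z : ℝ) ^ n * 2 ^ Q * P0.leaves := by
          field_simp
        rw [h2] at h1
        refine h1.trans (le_of_eq ?_)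
        ring
      have s1 := ih Q H P1 X {y | y ∈ Y ∧ m y = true} W A B1 t _ hd1 ho1 hc.1 hH hol1
        (mul_pos (div_pos hp1 hps) hM0) hM1 (by omega)
      have s0 := ih Q H P0 X {y | y ∈ Y ∧ m y = false} W A B0 t _ hd0 ho0 hc.2 hH hol0
        (mul_pos (div_pos hp0 hps) hM0) hM2 (by omega)
      exact hgoal _ (hmain Q P1 P0 hsum) (sep_B s1 s0 hB)
    | alice m P1 P0 =>
      obtain ⟨hd1, hd0⟩ := hdep P1 P0 hd
      have hsum : (Prot.alice m P1 P0).leaves = P1.leaves + P0.leaves := rfl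
      have hp1 : (0 : ℝ) < P1.leaves := by exact_mod_cast szm_pos P1
      have hp0 : (0 : ℝ) < P0.leaves := by exact_mod_cast szm_pos P0
      have hps : (0 : ℝ) < P1.leaves + P0.leaves := by linarith
      have hc := Correct.alice1 hP
      have hM' : (Fintype.card Z : ℝ) ^ n * 2 ^ Q * (P1.leaves + P0.leaves) ≤ 2 ^ T * M := by
        rw [hsum] at hM
        push_cast at hM
        exact hM
      rcases hone with ⟨J, hJ, hin⟩ | ⟨a', ha', _, _⟩ | ⟨hm, ho1, ho0⟩ |
        ⟨L, hLQ, hL, hmsg, ho1, ho0⟩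
      · exact (ol_inBlocks hn hθ hG hC hT hb hS hs2 hThr (by omega) hM0 (hMM Q _ M hM) hol hP
          hsep hJ hin).elim
      · exact absurd ha' (by omega)
      · obtain ⟨B1, B0, hB, hol1, hol0⟩ := ol_fun hol m (hS' m hm)
          (α1 := (P1.leaves : ℝ) / (P1.leaves + P0.leaves))
          (α0 := (P0.leaves : ℝ) / (P1.leaves + P0.leaves)) (by field_simp)
        have hM1 : (Fintype.card Z : ℝ) ^ n * 2 ^ Q * P1.leaves ≤
            2 ^ T * ((P1.leaves : ℝ) / (P1.leaves + P0.leaves) * M) := by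
          have h1 := mul_le_mul_of_nonneg_left hM' (div_pos hp1 hps).le
          have h2 : (P1.leaves : ℝ) / (P1.leaves + P0.leaves) *
              ((Fintype.card Z : ℝ) ^ n * 2 ^ Q * (P1.leaves + P0.leaves)) =
              (Fintype.card Z : ℝ) ^ n * 2 ^ Q * P1.leaves := by
            field_simp
          rw [h2] at h1
          refine h1.trans (le_of_eq ?_)
          ring
        have hM2 : (Fintype.card Z : ℝ) ^ n * 2 ^ Q * P0.leaves ≤
            2 ^ T * ((P0.leaves : ℝ) / (P1.leaves + P0.leaves) * M) := by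
          have h1 := mul_le_mul_of_nonneg_left hM' (div_pos hp0 hps).le
          have h2 : (P0.leaves : ℝ) / (P1.leaves + P0.leaves) *
              ((Fintype.card Z : ℝ) ^ n * 2 ^ Q * (P1.leaves + P0.leaves)) =
              (Fintype.card Z : ℝ) ^ n * 2 ^ Q * P0.leaves := by
            field_simp
          rw [h2] at h1
          refine h1.trans (le_of_eq ?_)
          ring
        have hHs : ∀ s : Bool, ∀ h ∈ m :: H, ∀ w ∈ W.filter (fun w => m (inp w) = s),
            ∀ w' ∈ W.filter (fun w => m (inp w) = s), h (inp w) = h (inp w') := by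
          intro s h hh w hw w' hw'
          rw [mem_filter] at hw hw'
          rcases List.mem_cons.1 hh with rfl | hh
          · rw [hw.2, hw'.2]
          · exact hH h hh w hw.1 w' hw'.1
        have s1 := ih Q (m :: H) P1 {x | x ∈ X ∧ m x = true} Y
          (W.filter (fun w => m (inp w) = true)) A B1 (t + 1) _ hd1 ho1 hc.1 (hHs true) hol1
          (mul_pos (div_pos hp1 hps) hM0) hM1 (by omega)
        have s0 := ih Q (m :: H) P0 {x | x ∈ X ∧ m x = false} Y
          (W.filter (fun w => m (inp w) = false)) A B0 (t + 1) _ hd0 ho0 hc.2 (hHs false) hol0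
          (mul_pos (div_pos hp0 hps) hM0) hM2 (by omega)
        exact hgoal _ (hmain Q P1 P0 hsum) (sep_B s1 s0 hB)
      · obtain ⟨q, rfl⟩ := Nat.exists_eq_add_of_le hLQ
        rw [Nat.add_sub_cancel_left] at ho1 ho0
        have h2L : (0 : ℝ) < 2 ^ L.length := by positivity
        have hop := ol_open (s := 2 ^ q * Thr * (((d : ℝ) + 1 + 1) *
          (((Prot.alice m P1 P0).leaves : ℝ) / 2 ^ D))) L (fun h hh => hS' h (hL h hh)) W B t M hol
          (by
            intro W' B' hW' hconst hol'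
            have hconst' : ∀ h ∈ H ++ L, ∀ w ∈ W', ∀ w' ∈ W', h (inp w) = h (inp w') := by
              intro h hh w hw w' hw'
              rcases List.mem_append.1 hh with hh | hh
              · exact hH h hh w (hW' hw) w' (hW' hw')
              · exact hconst h hh w hw w' hw'
            obtain ⟨A1, A0, hA, hol1, hol0⟩ := ol_val hol' m (by
              intro w hw w' hw' hww
              apply hmsg
              · intro i
                rw [hg, hg]
                exact hww i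
              · intro i hi
                exact absurd hi (notMem_empty i)
              · intro h hh
                exact hconst' h hh w hw w' hw')
            have hMc : ∀ c : ℝ, 0 ≤ c → c ≤ P1.leaves + P0.leaves →
                (Fintype.card Z : ℝ) ^ n * 2 ^ q * c ≤ 2 ^ T * (M / 2 ^ L.length) := by
              intro c hc0 hc1
              rw [← mul_div_assoc, le_div_iff₀ h2L]
              calc (Fintype.card Z : ℝ) ^ n * 2 ^ q * c * 2 ^ L.length
                  = (Fintype.card Z : ℝ) ^ n * 2 ^ (L.length + q) * c := by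
                    rw [pow_add]
                    ring
                _ ≤ (Fintype.card Z : ℝ) ^ n * 2 ^ (L.length + q) * (P1.leaves + P0.leaves) :=
                    mul_le_mul_of_nonneg_left hc1 (by positivity)
                _ ≤ 2 ^ T * M := hM'
            have s1 := ih q (H ++ L) P1 {x | x ∈ X ∧ m x = true} Y W' A1 B' (t + L.length) _ hd1
              ho1 hc.1 hconst' hol1 (div_pos hM0 h2L) (hMc _ hp1.le (by linarith)) (by omega)
            have s0 := ih q (H ++ L) P0 {x | x ∈ X ∧ m x = false} Y W' A0 B' (t + L.length) _ hd0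
              ho0 hc.2 hconst' hol0 (div_pos hM0 h2L) (hMc _ hp0.le (by linarith)) (by omega)
            exact sep_mono (sep_A s1 s0 hA) (hmain q P1 P0 hsum))
        refine hgoal _ (le_of_eq ?_) hop
        rw [pow_add]
        ring

end MP979
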