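import Pool.Agent.Lib.MP_979eef_lc.R.Mai
import Pool.Agent.Lib.MP_979eef_lc.R.End
import Pool.Agent.Lib.MP_979eef_lc.R.Beg
import Pool.Agent.Lib.MP_979eef_lc.R.Swa
import Pool.Agent.Lib.MP_979eef_lc.R.Exi
import Pool.Agent.Lib.MP_979eef_lc.R.Paa
import Pool.Agent.Lib.MP_979eef_lc.R.SzM
import Pool.Agent.Lib.MP_979eef_lc.Q.Fin3

/-!
# MP_979eef_lc, one-sided protocols, module Fin: assembly
-/

set_option autoImplicit false

namespace MP979

open Finset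

theorem leaves_swap {ι : Type} (P : Prot ι) : P.swap.leaves = P.leaves := by
  induction P with
  | leaf i => rfl
  | alice m P Q hP hQ => simp only [Prot.swap, Prot.leaves, hP, hQ]
  | bob m P Q hP hQ => simp only [Prot.swap, Prot.leaves, hP, hQ]

theorem par_three (ε η : ℝ) (hε : 0 < ε) (hη : 0 < η) : ∃ (ρ : ℝ) (C n₀ : ℕ), 0 < ρ ∧ ρ ≤ 1 ∧
    1 ≤ C ∧ ∀ n ≥ n₀, 2 ^ (8 * n) < (2 ^ ⌊η * n⌋₊) ^ (C + 1) ∧
      ∀ u : ℕ, (u : ℝ) ≤ ρ * n → (2 : ℝ) ^ u * ((C : ℝ) * (2 * n) ^ C + 5) ≤ 2 ^ (ε * n) := by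
  obtain ⟨ρ, C, n₀, h1, h2, h3, h4⟩ := par_one ε (η / 2) hε (by linarith)
  refine ⟨ρ, C, n₀, h1, h2, h3, fun n hn => ⟨?_, (h4 n hn).2⟩⟩
  have h5 := (h4 n hn).1
  have h6 : 2 * ⌊η / 2 * (n : ℝ)⌋₊ ≤ ⌊η * n⌋₊ := by
    apply Nat.le_floor
    push_cast
    have : (⌊η / 2 * (n : ℝ)⌋₊ : ℝ) ≤ η / 2 * n := Nat.floor_le (by positivity)
    linarith
  calc 2 ^ (8 * n) = 2 ^ (4 * n) * 2 ^ (4 * n) := by rw [← pow_add]; congr 1; ring
    _ < (2 ^ ⌊η / 2 * (n : ℝ)⌋₊) ^ (C + 1) * (2 ^ ⌊η / 2 * (n : ℝ)⌋₊) ^ (C + 1) :=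
      Nat.mul_lt_mul'' h5 h5
    _ = (2 ^ (2 * ⌊η / 2 * (n : ℝ)⌋₊)) ^ (C + 1) := by rw [← mul_pow, ← pow_add, two_mul]
    _ ≤ (2 ^ ⌊η * n⌋₊) ^ (C + 1) :=
      Nat.pow_le_pow_left (Nat.pow_le_pow_right (by norm_num) h6) _

theorem par_four (κ : ℝ) (hκ : 0 < κ) : ∃ n₀ : ℕ, ∀ n ≥ n₀,
    2 * ((n : ℝ) ^ 2 + 1) ≤ 2 ^ (κ * n) := by
  have hr : (1 : ℝ) < 2 ^ κ := Real.one_lt_rpow (by norm_num) hκ
  have h1 := (isLittleO_pow_const_const_pow_of_one_lt (R := ℝ) 2 hr).def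
    (c := 1 / 4) (by norm_num)
  obtain ⟨N, hN⟩ := Filter.eventually_atTop.1 h1
  refine ⟨max N 1, fun n hn => ?_⟩
  have h3 := hN n ((le_max_left _ _).trans hn)
  have hn1 : (1 : ℝ) ≤ n := by exact_mod_cast (le_max_right _ _).trans hn
  rw [Real.norm_of_nonneg (by positivity), Real.norm_of_nonneg (by positivity),
    ← Real.rpow_natCast ((2 : ℝ) ^ κ) n, ← Real.rpow_mul (by norm_num)] at h3
  nlinarith

theorem os_core (δ ε : ℝ) (hδ : 0 < δ) (hε : 0 < ε) (hε2 : 2 * ε ≤ 1) : ∃ (ρ : ℝ) (n₀ : ℕ),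
    0 < ρ ∧ ∀ n ≥ n₀, ∀ 𝓗 : Finset ((Fin n × Fin n → Bool) → Bool),
    (𝓗.card : ℝ) ≤ 2 ^ ((2 : ℝ) ^ ((1 - δ) * n)) →
    ∃ g : (Fin n → Bool) → Bool, NonConst g ∧
      (∀ (f : (Fin n → Bool) → Bool) (P : Prot (Fin n × Fin n)) (k a Q v : ℕ),
        P.Solves (comp f g) → ((2 ^ a * v : ℕ) : ℝ) ≤ ρ * n → OneSided g 𝓗 v k a Q [] P →
        (∀ φ : Fml (Fin n), (∀ x, φ.eval x = f x) →
          (2 : ℝ) ^ (((2 ^ a * (k + Q) : ℕ) : ℝ) + ε * n) ≤ φ.size) →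
        k + (1 - ε) * n ≤ P.depth) ∧
      (∀ (f : (Fin n → Bool) → Bool) (P : Prot (Fin n × Fin n)), NonConst f →
        P.Solves (comp f g) → (1 - ε) * n ≤ P.depth) ∧
      ∀ (f : (Fin n → Bool) → Bool) (P : Prot (Fin n × Fin n)) (Q v : ℕ) (c : ℝ),
        NonConst f → P.Solves (comp f g) → (v : ℝ) ≤ ρ * n → P.depth ≤ n ^ 2 → Q ≤ 3 * n →
        P.leaves ≤ 2 ^ (3 * n) → OneSided g 𝓗 v P.depth 0 Q [] P →
        (∀ φ : Fml (Fin n), (∀ x, φ.eval x = f x) → c ≤ φ.size) → 0 ≤ c →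
        c * 2 ^ ((1 - ε) * n) ≤ 2 ^ Q * P.leaves * (2 ^ (ε * n) * (2 * ((n : ℝ) ^ 2 + 1))) := by
  classical
  obtain ⟨δ0, hδ0, hδ01, hδ0δ, hδ0ε⟩ :
      ∃ δ0 : ℝ, 0 < δ0 ∧ 2 * δ0 ≤ 1 ∧ δ0 ≤ δ ∧ 2 * δ0 ≤ ε := by
    refine ⟨min (1 / 2) (min δ (ε / 2)), by positivity, ?_, ?_, ?_⟩
    · have := min_le_left (1 / 2 : ℝ) (min δ (ε / 2)); linarith
    · exact le_trans (min_le_right _ _) (min_le_left _ _)
    · have := le_trans (min_le_right (1 / 2 : ℝ) (min δ (ε / 2))) (min_le_right _ _); linarith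
  obtain ⟨η, hη, hη6⟩ : ∃ η : ℝ, 0 < η ∧ 6 * η ≤ δ0 / 2 := ⟨δ0 / 12, by positivity, by linarith⟩
  obtain ⟨n1, h1⟩ := par_exp (δ0 / 2) η (by linarith) (by linarith) hη hη6
  obtain ⟨n3, h3'⟩ := par_fam δ0 hδ0 (by linarith)
  obtain ⟨ρ, C, n2, hρ, hρ1, hC, h2⟩ := par_three ε η hε hη
  obtain ⟨n4, h4⟩ := par_two ε δ0 hε hδ0 hδ01 hδ0ε
  refine ⟨ρ, max (max n1 n2) (max n3 (max n4 2)), hρ, fun n hn 𝓗 h𝓗 => ?_⟩
  have hn1 : n1 ≤ n := by omega
  have hn2 : n2 ≤ n := by omega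
  have hn3 : n3 ≤ n := by omega
  have hn4 : n4 ≤ n := by omega
  have hn02 : 2 ≤ n := by omega
  have hn0 : 0 < n := by omega
  obtain ⟨hpow8, hCc⟩ := h2 n hn2
  have hpow : 2 ^ (4 * n) < (2 ^ ⌊η * n⌋₊) ^ (C + 1) :=
    lt_of_le_of_lt (Nat.pow_le_pow_right (by norm_num) (by omega)) hpow8
  have hD2 := h4 n hn4
  set l := Nat.clog 2 n with hl
  set t0 := ⌊η * n⌋₊ with ht0
  set s' : ℕ := ⌊(2 : ℝ) ^ ((1 - δ0) * n)⌋₊ with hs'
  have hpos : (0 : ℝ) ≤ (2 : ℝ) ^ ((1 - δ0) * n) := Real.rpow_nonneg (by norm_num) _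
  obtain ⟨S0, hS0c, hS0⟩ := Fml.exists_finset (ι := Fin n × Fin n) s'
  set S : Finset ((Fin n → (Fin (n - l) → Bool)) → Bool) :=
    S0.image (fun F w => F (inpC n l w)) ∪ 𝓗.image (fun F w => F (inpC n l w)) with hS
  have h𝓗' : 𝓗.card ≤ 2 ^ (s' + 1) := by
    have e1 : (𝓗.card : ℝ) ≤ (2 : ℝ) ^ ((s' + 1 : ℕ) : ℝ) := by
      refine le_trans h𝓗 (Real.rpow_le_rpow_of_exponent_le (by norm_num) ?_)
      have e2 : (2 : ℝ) ^ ((1 - δ0) * n) < (s' : ℝ) + 1 := Nat.lt_floor_add_one _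
      have e3 : (2 : ℝ) ^ ((1 - δ) * (n : ℝ)) ≤ 2 ^ ((1 - δ0) * n) := by
        refine Real.rpow_le_rpow_of_exponent_le (by norm_num) ?_
        have : (0 : ℝ) ≤ n := Nat.cast_nonneg n
        nlinarith
      push_cast
      linarith
    rw [Real.rpow_natCast] at e1
    exact_mod_cast e1
  have hSc : S.card ≤ (2 * n ^ 2 + 3) ^ (2 * (s' + (s' + 1))) := by
    have e1 : S.card ≤ (2 * n ^ 2 + 3) ^ (2 * s') + 2 ^ (s' + 1) := by
      refine le_trans (card_union_le _ _) (Nat.add_le_add ?_ ?_)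
      · refine le_trans Finset.card_image_le (le_trans hS0c ?_)
        rw [Fintype.card_prod, Fintype.card_fin, ← pow_two]
      · exact le_trans Finset.card_image_le h𝓗'
    have e2 : 1 + 2 ^ (s' + 1) ≤ (2 * n ^ 2 + 3) ^ (2 * (s' + 1)) := by
      calc 1 + 2 ^ (s' + 1) ≤ 2 ^ (s' + 1) + 2 ^ (s' + 1) :=
            Nat.add_le_add_right Nat.one_le_two_pow _
        _ = 2 ^ (s' + 2) := by rw [pow_succ 2 (s' + 1)]; ring
        _ ≤ 2 ^ (2 * (s' + 1)) := Nat.pow_le_pow_right (by norm_num) (by omega)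
        _ ≤ (2 * n ^ 2 + 3) ^ (2 * (s' + 1)) := Nat.pow_le_pow_left (by omega) _
    have e3 : 1 ≤ (2 * n ^ 2 + 3) ^ (2 * s') := Nat.one_le_pow _ _ (by omega)
    rw [Nat.mul_add 2 s' (s' + 1), pow_add]
    calc S.card ≤ (2 * n ^ 2 + 3) ^ (2 * s') + 2 ^ (s' + 1) := e1
      _ ≤ (2 * n ^ 2 + 3) ^ (2 * s') * (1 + 2 ^ (s' + 1)) := by nlinarith
      _ ≤ _ := Nat.mul_le_mul_left _ e2
  have hSm : ∀ φ : Fml (Fin n × Fin n), φ.size ≤ s' → (fun w => φ.eval (inpC n l w)) ∈ S := by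
    intro φ hφ
    rw [hS, mem_union, mem_image]
    exact Or.inl ⟨fun x => φ.eval x, hS0 φ hφ, rfl⟩
  have hSm' : ∀ φ ∈ 𝓗, (fun w => φ (inpC n l w)) ∈ S := by
    intro φ hφ
    rw [hS, mem_union]
    exact Or.inr (mem_image.2 ⟨φ, hφ, rfl⟩)
  have hcardZ : Fintype.card (Fin (n - l) → Bool) = 2 ^ (n - l) := by
    rw [Fintype.card_fun, Fintype.card_bool, Fintype.card_fin]
  obtain ⟨tm, htm⟩ : ∃ tm, tm + 1 = 4 * n ^ 2 + 8 * n :=
    ⟨4 * n ^ 2 + 8 * n - 1, Nat.sub_add_cancel (by nlinarith)⟩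
  obtain ⟨hln, ht02, hq, hexp⟩ := h1 n hn1 (s' + (s' + 1)) S.card (tm + 1) (h3' n hn3) hSc
    (by omega)
  have hnl : n ≤ 2 ^ l := Nat.le_pow_clog (by norm_num) n
  have hq16 : 16 * n ≤ 2 ^ (n - l) := by
    refine le_trans ?_ hq
    have h5 : 2 ^ 4 ≤ 2 ^ (3 * t0) := Nat.pow_le_pow_right (by norm_num) (by omega)
    nlinarith
  obtain ⟨G, hG, hbal⟩ := exists_hits_bal S (2 ^ t0) (2 ^ (3 * t0)) tm hn0
    Nat.one_le_two_pow (by rw [hcardZ]; exact hq) (by rw [hcardZ]; exact hq16) (by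
      refine lt_of_le_of_lt ?_ hexp
      have hop := ops_card S (2 ^ t0)
      have hfc := fam_card S (2 ^ t0) tm
      rw [hcardZ] at hop
      set b : ℝ := 1 + ((n : ℝ) * 2 ^ (n - l) + 2 * S.card + n + 2 ^ n +
        2 ^ n * (2 ^ (n - l)) ^ n) with hb
      have h3 : ((Fam S (2 ^ t0) tm).card : ℝ) ≤ b ^ tm := by
        refine le_trans (Nat.cast_le.mpr hfc) ?_
        push_cast
        refine pow_le_pow_left₀ (by positivity) ?_ _
        have := (Nat.cast_le (α := ℝ)).mpr hop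
        push_cast at this
        linarith
      have hb2 : 2 ≤ b := by
        have e1 : (1 : ℝ) ≤ 2 ^ n := one_le_pow₀ (by norm_num)
        have e2 : (0 : ℝ) ≤ (n : ℝ) * 2 ^ (n - l) + 2 * S.card + n +
          2 ^ n * (2 ^ (n - l)) ^ n := by positivity
        rw [hb]
        linarith
      rw [hcardZ]
      push_cast
      have h6 : 2 * ((Fam S (2 ^ t0) tm).card : ℝ) ≤ b ^ (tm + 1) := by
        rw [pow_succ, mul_comm (b ^ tm)]
        exact mul_le_mul hb2 h3 (by positivity) (by linarith)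
      set ex : ℝ := 2 * Real.exp (-((2 : ℝ) ^ (n - l) / (16 * n * 2 ^ (3 * t0)))) with hex
      have hex0 : 0 ≤ ex := by positivity
      calc 2 * (((Fam S (2 ^ t0) tm).card : ℝ) * 2 ^ n * 2 ^ n * ex)
          = (2 * ((Fam S (2 ^ t0) tm).card : ℝ)) * 2 ^ n * 2 ^ n * ex := by ring
        _ ≤ b ^ (tm + 1) * 2 ^ n * 2 ^ n * ex := by
          refine mul_le_mul_of_nonneg_right ?_ hex0
          refine mul_le_mul_of_nonneg_right ?_ (by positivity)
          exact mul_le_mul_of_nonneg_right h6 (by positivity))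
  have hG' : ∀ t ≤ tm, Hits G (2 ^ t0) (Fam S (2 ^ t0) t) :=
    fun t ht E hE hne F hd => hG E (fam_mono S _ ht hE) hne F
      (dense_mono hd (Nat.pow_le_pow_right (by norm_num) (by omega)))
  have hgi := fun w i => gC_inpC hln hnl G w i
  have hval : ∀ b : Bool, ∃ x, gC n l G x = b := by
    intro b
    obtain ⟨w, -, hw⟩ := hG' 0 (Nat.zero_le _) univ (fam_univ S _) univ_nonempty ∅
      (dense_univ _ Nat.one_le_two_pow) (fun _ => b)
    exact ⟨blk (inpC n l w) ⟨0, hn0⟩, by rw [hgi]; exact hw _ (notMem_empty _)⟩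
  have hnn : (0 : ℝ) ≤ n := Nat.cast_nonneg n
  have hn2r : (2 : ℝ) ≤ n := by exact_mod_cast hn02
  set D : ℕ := ⌊(1 - ε) * n⌋₊ with hD
  have hD1 : 1 ≤ D := by
    rw [hD]
    apply Nat.le_floor
    push_cast
    nlinarith
  have hDlt : (1 - ε) * n < (D : ℝ) + 1 := Nat.lt_floor_add_one _
  have hcomp : ∀ (f : (Fin n → Bool) → Bool) w,
      comp f (gC n l G) (inpC n l w) = f (fun i => G i (w i)) := by
    intro f w
    show f (fun i => gC n l G (blk (inpC n l w) i)) = _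
    congr 1
    funext i
    exact hgi w i
  have hq0 : (0 : ℝ) < Fintype.card (Fin (n - l) → Bool) := by
    rw [hcardZ]
    positivity
  -- all outer functions: the number of leaves
  have hbase : ∀ (f : (Fin n → Bool) → Bool) (P : Prot (Fin n × Fin n)), NonConst f →
      P.Solves (comp f (gC n l G)) → s' < P.leaves := by
    intro f P hf hP
    have hG'' : ∀ t ≤ tm, Hits G (2 ^ (3 * t0)) (Fam S (2 ^ t0) t) :=
      fun t ht E hE => hG E (fam_mono S _ ht hE)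
    have hst : St G (inpC n l) S (2 ^ t0) {x | comp f (gC n l G) x = true}
        {y | comp f (gC n l G) y = false} ∅ univ {a | f a = true} {a | f a = false}
        (2 ^ t0) 0 0 0 2 := by
      refine ⟨univ_nonempty, by simp, by simp, by simp, ?_, ?_, fam_univ S _,
        dense_univ _ Nat.one_le_two_pow, ?_, ?_⟩
      · intro w _ a ha h
        show comp f (gC n l G) (inpC n l w) = true
        rw [hcomp, show (fun i => G i (w i)) = a from funext h]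
        exact ha
      · intro w _ b hb' h
        show comp f (gC n l G) (inpC n l w) = false
        rw [hcomp, show (fun i => G i (w i)) = b from funext h]
        exact hb'
      · simp
      · intro φ _ _
        have : (0 : ℝ) ≤ φ.size := Nat.cast_nonneg _
        linarith
    exact sp_end hG'' (by nlinarith) (by
      calc 2 * 2 ^ t0 = 2 ^ (t0 + 1) := by rw [pow_succ]; ring
        _ ≤ 2 ^ (3 * t0) := Nat.pow_le_pow_right (by norm_num) (by omega)) hSm hst hf.1 hf.2 P hP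
  have hDs : 2 ^ D ≤ s' := by
    have h11 := hD2 0 (by omega)
    rwa [Nat.zero_add] at h11
  have hs2 : 2 ≤ s' := by
    refine le_trans ?_ hDs
    calc 2 = 2 ^ 1 := by norm_num
      _ ≤ 2 ^ D := Nat.pow_le_pow_right (by norm_num) hD1
  refine ⟨gC n l G, ⟨hval true, hval false⟩, ?_, ?_, ?_⟩
  rotate_left
  · -- all outer functions, no message
    intro f P hf hP
    by_contra hcon
    have hdep : P.depth ≤ D := by
      by_contra h5
      apply hcon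
      have h6 : D + 1 ≤ P.depth := by omega
      have h7 : (D : ℝ) + 1 ≤ P.depth := by exact_mod_cast h6
      linarith
    have h8 := hbase f P hf hP
    have h9 := leaves_le P
    have h10 : 2 ^ P.depth ≤ 2 ^ D := Nat.pow_le_pow_right (by norm_num) hdep
    omega
  · -- the size bound
    intro f P Q v c hfc hP hv hdep hQ hleaves hM hf hc0
    have hvn : v ≤ n := by
      have : (v : ℝ) ≤ n := by nlinarith
      exact_mod_cast this
    have hlv := hbase f P hfc hP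
    have hst := os_start (S := S) (θ := 2 ^ t0) (c := c) (hcomp f) hbal hf
    have hol : Ol G (inpC n l) S (2 ^ t0) {x | comp f (gC n l G) x = true}
        {y | comp f (gC n l G) y = false} univ {a | f a = true} {b | f b = false} 0
        (((Fintype.card (Fin (n - l) → Bool) : ℝ) / 4) ^ n) := by
      refine ⟨?_, hst.big, hst.fam⟩
      intro w _ hw
      show comp f (gC n l G) (inpC n l w) = true
      rw [hcomp]
      exact hw
    obtain ⟨φ, hφ1, hφ0, hφs⟩ := os_size (S := S) (θ := 2 ^ t0) (T := 8 * n) (v := v) (D := D)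
      (g := gC n l G) (𝓗 := 𝓗) (Thr := 2 ^ (ε * (n : ℝ))) hn0 Nat.one_le_two_pow hG' hC hpow8 hgi
      (fun w w' i h => blk_inpC w w' i h) hSm hs2 hSm' hDs (hCc v hv) P.depth Q [] P _ _ univ _ _ 0
      _ (le_refl _) hM hP (by simp) hol (by positivity) (by
        rw [div_pow, mul_div_assoc', le_div_iff₀ (by positivity)]
        have e1 : (2 : ℝ) ^ Q ≤ 2 ^ (3 * n) := pow_le_pow_right₀ (by norm_num) hQ
        have e2 : (P.leaves : ℝ) ≤ 2 ^ (3 * n) := by exact_mod_cast hleaves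
        have e3 : (4 : ℝ) ^ n = 2 ^ (2 * n) := by rw [pow_mul]; norm_num
        have e4 : (2 : ℝ) ^ (8 * n) = 2 ^ (3 * n) * 2 ^ (3 * n) * 2 ^ (2 * n) := by
          rw [← pow_add, ← pow_add]
          congr 1
          ring
        rw [e4, e3]
        have e5 : (0 : ℝ) ≤ (Fintype.card (Fin (n - l) → Bool) : ℝ) ^ n := by positivity
        calc (Fintype.card (Fin (n - l) → Bool) : ℝ) ^ n * 2 ^ Q * P.leaves * 2 ^ (2 * n)
            = (2 ^ Q * P.leaves) * 2 ^ (2 * n) * (Fintype.card (Fin (n - l) → Bool) : ℝ) ^ n := by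
              ring
          _ ≤ (2 ^ (3 * n) * 2 ^ (3 * n)) * 2 ^ (2 * n) *
              (Fintype.card (Fin (n - l) → Bool) : ℝ) ^ n := by
            refine mul_le_mul_of_nonneg_right (mul_le_mul_of_nonneg_right ?_ (by positivity)) e5
            exact mul_le_mul e1 e2 (Nat.cast_nonneg _) (by positivity)) (by
        nlinarith)
    have hcφ := hf φ (fun x => by
      cases hx : f x with
      | true => exact hφ1 x hx
      | false => exact hφ0 x hx)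
    have h2D : (0 : ℝ) < 2 ^ D := by positivity
    have hlr : (2 : ℝ) ^ D ≤ P.leaves := by
      have : 2 ^ D ≤ P.leaves := by omega
      exact_mod_cast this
    have hmax : max 1 (((P.depth : ℝ) + 1) * P.leaves / 2 ^ D) =
        ((P.depth : ℝ) + 1) * P.leaves / 2 ^ D := by
      apply max_eq_right
      rw [le_div_iff₀ h2D, one_mul]
      have : (0 : ℝ) ≤ P.depth := Nat.cast_nonneg _
      nlinarith
    rw [hmax] at hφs
    have h5 : c * 2 ^ D ≤ 2 ^ Q * 2 ^ (ε * (n : ℝ)) * (((P.depth : ℝ) + 1) * P.leaves) := by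
      have := hcφ.trans hφs
      rwa [mul_div_assoc', le_div_iff₀ h2D] at this
    have h6 : (2 : ℝ) ^ ((1 - ε) * n) ≤ 2 * 2 ^ D := by
      have h21 : (2 : ℝ) ^ ((1 - ε) * (n : ℝ)) ≤ 2 ^ ((D : ℝ) + 1) :=
        Real.rpow_le_rpow_of_exponent_le (by norm_num) hDlt.le
      rw [Real.rpow_add (by norm_num), Real.rpow_natCast, Real.rpow_one] at h21
      linarith
    have h7 : ((P.depth : ℝ) + 1) ≤ (n : ℝ) ^ 2 + 1 := by
      have : (P.depth : ℝ) ≤ (n : ℝ) ^ 2 := by exact_mod_cast hdep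
      linarith
    have hl0 : (0 : ℝ) ≤ P.leaves := Nat.cast_nonneg _
    calc c * 2 ^ ((1 - ε) * (n : ℝ)) ≤ c * (2 * 2 ^ D) := mul_le_mul_of_nonneg_left h6 hc0
      _ = 2 * (c * 2 ^ D) := by ring
      _ ≤ 2 * (2 ^ Q * 2 ^ (ε * (n : ℝ)) * (((P.depth : ℝ) + 1) * P.leaves)) := by linarith
      _ = (2 ^ Q * P.leaves * 2 ^ (ε * (n : ℝ)) * 2) * ((P.depth : ℝ) + 1) := by ring
      _ ≤ (2 ^ Q * P.leaves * 2 ^ (ε * (n : ℝ)) * 2) * ((n : ℝ) ^ 2 + 1) :=
        mul_le_mul_of_nonneg_left h7 (by positivity)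
      _ = 2 ^ Q * P.leaves * (2 ^ (ε * (n : ℝ)) * (2 * ((n : ℝ) ^ 2 + 1))) := by ring
  -- the case of few arbitrary messages
  have main : ∀ (f : (Fin n → Bool) → Bool) (P : Prot (Fin n × Fin n)) (k a Q v : ℕ),
      2 ^ a ≤ 2 * n → P.Solves (comp f (gC n l G)) → ((2 ^ a * v : ℕ) : ℝ) ≤ ρ * n →
      OneSided (gC n l G) 𝓗 v k a Q [] P →
      (∀ φ : Fml (Fin n), (∀ x, φ.eval x = f x) →
        (2 : ℝ) ^ (((2 ^ a * (k + Q) : ℕ) : ℝ) + ε * n) ≤ φ.size) →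
      2 ^ a * (k + Q) ≤ 2 * n → k + (1 - ε) * n ≤ P.depth := by
    intro f P k a Q v ha hP hv hM hf hK
    set K := 2 ^ a * (k + Q) with hKd
    set u := 2 ^ a * v with hu
    have hcu := hCc u hv
    have hun : u ≤ n := by
      have : (u : ℝ) ≤ n := by nlinarith
      exact_mod_cast this
    by_contra hcon
    have hdep : P.depth ≤ k + D := by
      by_contra h5
      apply hcon
      have h6 : k + D + 1 ≤ P.depth := by omega
      have h7 : (k : ℝ) + D + 1 ≤ P.depth := by exact_mod_cast h6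
      linarith
    set M : ℝ := ((Fintype.card (Fin (n - l) → Bool) : ℝ) / 4) ^ n / 2 ^ K with hMd
    have hM0 : 0 < M := by positivity
    set Φ : ℝ := 2 ^ u * ((C : ℝ) * (2 * n) ^ C + 5) with hΦ
    have hΦ0 : 0 ≤ Φ := by positivity
    have hst := os_start (S := S) (θ := 2 ^ t0) (c := 2 ^ K * Φ) (hcomp f) hbal (by
      intro φ hφ
      refine le_trans ?_ (hf φ hφ)
      rw [Real.rpow_add (by norm_num), Real.rpow_natCast]
      exact mul_le_mul_of_nonneg_left hcu (by positivity))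
    have hMK : ((Fintype.card (Fin (n - l) → Bool) : ℝ) / 4) ^ n = 2 ^ K * M := by
      rw [hMd, mul_div_cancel₀ _ (by positivity)]
    rw [hMK] at hst
    obtain ⟨Y', W', A', B', ψ, J, hY', hW', hA', hB', st, hψs, hJ, ho⟩ :=
      os_main (S := S) (θ := 2 ^ t0) (v := v) (D := D) (g := gC n l G) (𝓗 := 𝓗) hn0 hD1 hgi hSm' k
        a Q [] P _ _ univ _ _ 0 M Φ hM0.le hΦ0 hM hP hdep (by simp) hst
    refine os_end (T := 4 * n) (u := u) hn0 Nat.one_le_two_pow hG' hC hpow ?_ hJ hM0 ?_ (le_refl _)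
      (fun w w' i h => blk_inpC w w' i h) (hSm ψ (hψs.trans (hD2 a ha))) ?_ st ho
    · rw [Nat.zero_add]
      nlinarith
    · rw [hMd, ← mul_div_assoc, le_div_iff₀ (by positivity), div_pow]
      have h8 : (2 : ℝ) ^ (4 * n) = 4 ^ n * 4 ^ n := by
        rw [← mul_pow, pow_mul]
        norm_num
      have h9 : (2 : ℝ) ^ K ≤ 4 ^ n := by
        calc (2 : ℝ) ^ K ≤ 2 ^ (2 * n) := pow_le_pow_right₀ (by norm_num) hK
          _ = 4 ^ n := by rw [pow_mul]; norm_num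
      rw [h8, mul_assoc, mul_div_cancel₀ _ (by positivity : ((4 : ℝ) ^ n) ≠ 0), mul_comm]
      exact mul_le_mul_of_nonneg_right h9 (by positivity)
    · intro w _ hwA
      show comp f (gC n l G) (inpC n l w) = true
      rw [hcomp]
      exact hA' hwA
  intro f P k a Q v hP hv hM hf
  obtain ⟨φ4, hφ4, hφ4s⟩ := exists_fml4 hn0 f
  have hK2 : 2 ^ a * (k + Q) ≤ 2 * n := by
    have h5 := hf φ4 hφ4
    have h6 : (φ4.size : ℝ) ≤ (2 : ℝ) ^ ((2 * n : ℕ) : ℝ) := by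
      rw [Real.rpow_natCast, pow_mul]
      exact_mod_cast hφ4s
    have h7 := (Real.rpow_le_rpow_left_iff (by norm_num : (1 : ℝ) < 2)).1 (le_trans h5 h6)
    have h8 : (((2 ^ a * (k + Q) : ℕ) : ℝ)) ≤ ((2 * n : ℕ) : ℝ) := by nlinarith
    exact_mod_cast h8
  rcases Nat.eq_zero_or_pos (k + Q) with h0 | h0
  · have hk : k = 0 := by omega
    have hQ : Q = 0 := by omega
    subst hk hQ
    refine main f P 0 0 0 0 (by omega) hP (by simpa using mul_nonneg hρ.le hnn) trivial ?_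
      (by simp)
    intro φ hφ
    refine le_trans (Real.rpow_le_rpow_of_exponent_le (by norm_num) ?_) (hf φ hφ)
    simp
  · refine main f P k a Q v ?_ hP hv hM hf hK2
    exact le_trans (Nat.le_mul_of_pos_right _ h0) hK2

theorem oneSided_le {n : ℕ} {g : (Fin n → Bool) → Bool}
    {𝓗 : Finset ((Fin n × Fin n → Bool) → Bool)} {v : ℕ} (k : ℕ) :
    ∀ (k' a Q : ℕ) (H : List ((Fin n × Fin n → Bool) → Bool)) (P : Prot (Fin n × Fin n)), k' ≤ k →
      OneSided g 𝓗 v k a Q H P → OneSided g 𝓗 v k' a Q H P := by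
  induction k with
  | zero =>
    intro k' a Q H P hk h
    obtain rfl : k' = 0 := by omega
    exact h
  | succ k ih =>
    intro k' a Q H P hk h
    cases k' with
    | zero => trivial
    | succ k' =>
      have hk' : k' ≤ k := by omega
      cases P with
      | leaf i => trivial
      | alice m P P' =>
        rcases h with h | ⟨a', h1, h2, h3⟩ | ⟨h1, h2, h3⟩ | ⟨L, h1, h2, h3, h4, h5⟩
        · exact Or.inl h
        · exact Or.inr (Or.inl ⟨a', h1, ih _ _ _ _ _ hk' h2, ih _ _ _ _ _ hk' h3⟩)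
        · exact Or.inr (Or.inr (Or.inl ⟨h1, ih _ _ _ _ _ hk' h2, ih _ _ _ _ _ hk' h3⟩))
        · exact Or.inr (Or.inr (Or.inr ⟨L, h1, h2, h3, ih _ _ _ _ _ hk' h4,
            ih _ _ _ _ _ hk' h5⟩))
      | bob m P P' => exact ⟨ih _ _ _ _ _ hk' h.1, ih _ _ _ _ _ hk' h.2⟩

/-- the final form -/
theorem os_final (δ ε : ℝ) (hδ : 0 < δ) (hε : 0 < ε) : ∃ (ρ : ℝ) (n₀ : ℕ),
    0 < ρ ∧ ∀ n ≥ n₀, ∀ 𝓗 : Finset ((Fin n × Fin n → Bool) → Bool),
    (𝓗.card : ℝ) ≤ 2 ^ ((2 : ℝ) ^ ((1 - δ) * n)) →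
    ∃ g : (Fin n → Bool) → Bool, NonConst g ∧
      (∀ (f : (Fin n → Bool) → Bool) (P : Prot (Fin n × Fin n)) (k a Q v : ℕ),
        P.Solves (comp f g) → ((2 ^ a * v : ℕ) : ℝ) ≤ ρ * n →
        (OneSided g 𝓗 v k a Q [] P ∨ OneSided g 𝓗 v k a Q [] P.swap) →
        (∀ φ : Fml (Fin n), (∀ x, φ.eval x = f x) →
          (2 : ℝ) ^ (((2 ^ a * (k + Q) : ℕ) : ℝ) + ε * n) ≤ φ.size) →
        k + (1 - ε) * n ≤ P.depth) ∧
      ∀ (f : (Fin n → Bool) → Bool) (P : Prot (Fin n × Fin n)) (Q v : ℕ) (c : ℝ),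
        NonConst f → P.Solves (comp f g) → (v : ℝ) ≤ ρ * n →
        (OneSided g 𝓗 v P.depth 0 Q [] P ∨ OneSided g 𝓗 v P.depth 0 Q [] P.swap) →
        (∀ φ : Fml (Fin n), (∀ x, φ.eval x = f x) → c ≤ φ.size) →
        c * 2 ^ ((1 - ε) * n) ≤ 2 ^ (Q + P.depth) ∧
        (P.depth ≤ n ^ 2 → c * 2 ^ ((1 - ε) * n) ≤ 2 ^ Q * P.leaves) := by
  obtain ⟨ε', hε', hε'1, hε'2⟩ : ∃ ε' : ℝ, 0 < ε' ∧ 2 * ε' ≤ 1 ∧ 4 * ε' ≤ ε := by
    refine ⟨min (ε / 4) (1 / 2), by positivity, ?_, ?_⟩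
    · have := min_le_right (ε / 4) (1 / 2 : ℝ); linarith
    · have := min_le_left (ε / 4) (1 / 2 : ℝ); linarith
  obtain ⟨ρ, n₀, hρ, h⟩ := os_core δ ε' hδ hε' hε'1
  obtain ⟨n5, h5'⟩ := par_four ε' hε'
  refine ⟨ρ, max n₀ (max n5 (max 2 ⌈1 / ε⌉₊ * 2)), hρ, fun n hn 𝓗 h𝓗 => ?_⟩
  have hn0 : n₀ ≤ n := le_trans (le_max_left _ _) hn
  have hn5 : n5 ≤ n := le_trans (le_trans (le_max_left _ _) (le_max_right _ _)) hn
  have hn1 : max 2 ⌈1 / ε⌉₊ * 2 ≤ n := le_trans (le_trans (le_max_right _ _) (le_max_right _ _)) hn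
  obtain ⟨g, hg, hmain, hzero, hsize⟩ := h n hn0 𝓗 h𝓗
  have hn4 : 4 ≤ n := by
    have := le_max_left 2 ⌈1 / ε⌉₊
    omega
  have hnr : (4 : ℝ) ≤ n := by exact_mod_cast hn4
  have hnε : 2 ≤ ε * n := by
    have h1 : (1 / ε : ℝ) ≤ (⌈1 / ε⌉₊ : ℝ) := Nat.le_ceil _
    have h2 : ((⌈1 / ε⌉₊ * 2 : ℕ) : ℝ) ≤ n := by
      have : ⌈1 / ε⌉₊ * 2 ≤ n := by
        have := le_max_right 2 ⌈1 / ε⌉₊
        omega
      exact_mod_cast this
    push_cast at h2
    have h3 : 1 / ε * 2 ≤ n := by linarith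
    rw [div_mul_eq_mul_div, div_le_iff₀ hε] at h3
    linarith
  have hboth : ∀ (f : (Fin n → Bool) → Bool) (P : Prot (Fin n × Fin n)) (k a Q v : ℕ),
      P.Solves (comp f g) → ((2 ^ a * v : ℕ) : ℝ) ≤ ρ * n →
      (OneSided g 𝓗 v k a Q [] P ∨ OneSided g 𝓗 v k a Q [] P.swap) →
      (∀ φ : Fml (Fin n), (∀ x, φ.eval x = f x) →
        (2 : ℝ) ^ (((2 ^ a * (k + Q) : ℕ) : ℝ) + ε' * n) ≤ φ.size) →
      k + (1 - ε') * n ≤ P.depth := by
    intro f P k a Q v hP hv hM hf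
    rcases hM with hM | hM
    · exact hmain f P k a Q v hP hv hM hf
    · have := hmain (fun x => ! f x) P.swap k a Q v (solves_swap P f g hP) hv hM (fml_neg f _ hf)
      rwa [depth_swap] at this
  refine ⟨g, hg, fun f P k a Q v hP hv hM hf => ?_, fun f P Q v c hfc hP hv hM hf => ⟨?_, ?_⟩⟩
  · have := hboth f P k a Q v hP hv hM (fun φ hφ => le_trans
      (Real.rpow_le_rpow_of_exponent_le (by norm_num) (by nlinarith)) (hf φ hφ))
    nlinarith
  · rcases le_or_gt c 0 with hc | hc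
    · exact le_trans (mul_nonpos_of_nonpos_of_nonneg hc (Real.rpow_nonneg (by norm_num) _))
        (by positivity)
    obtain ⟨x, hx⟩ : ∃ x : ℝ, c = 2 ^ x :=
      ⟨Real.logb 2 c, (Real.rpow_logb (by norm_num) (by norm_num) hc).symm⟩
    have hgoal : x + (1 - ε) * n ≤ Q + P.depth → c * 2 ^ ((1 - ε) * (n : ℝ)) ≤ 2 ^ (Q + P.depth) := by
      intro h5
      rw [hx, ← Real.rpow_add (by norm_num), ← Real.rpow_natCast]
      refine Real.rpow_le_rpow_of_exponent_le (by norm_num) ?_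
      push_cast
      exact h5
    apply hgoal
    rcases lt_or_ge (x - Q - ε' * n) 0 with h6 | h6
    · have h7 := hzero f P hfc hP
      nlinarith
    · set k : ℕ := ⌊x - Q - ε' * n⌋₊ with hk
      have hk1 : (k : ℝ) ≤ x - Q - ε' * n := Nat.floor_le h6
      have hk2 : x - Q - ε' * n < k + 1 := Nat.lt_floor_add_one _
      have hkd : ((min k P.depth : ℕ) : ℝ) ≤ k := by exact_mod_cast min_le_left _ _
      have h8 := hboth f P (min k P.depth) 0 Q v hP (by simpa using hv) (by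
        rcases hM with hM | hM
        · exact Or.inl (oneSided_le _ _ _ _ _ _ (min_le_right _ _) hM)
        · exact Or.inr (oneSided_le _ _ _ _ _ _ (min_le_right _ _) hM)) (by
        intro φ hφ
        refine le_trans ?_ (hf φ hφ)
        rw [hx]
        refine Real.rpow_le_rpow_of_exponent_le (by norm_num) ?_
        push_cast
        have : (min (k : ℝ) P.depth) ≤ k := min_le_left _ _
        linarith)
      rcases le_or_gt k P.depth with h9 | h9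
      · rw [min_eq_left h9] at h8
        nlinarith
      · rw [min_eq_right h9.le] at h8
        nlinarith
  · -- the size form
    intro hdep
    rcases le_or_gt c 0 with hc | hc
    · exact le_trans (mul_nonpos_of_nonpos_of_nonneg hc (Real.rpow_nonneg (by norm_num) _))
        (by positivity)
    have hx1 : (2 : ℝ) ^ ((1 - ε) * (n : ℝ)) ≤ 2 ^ n := by
      rw [← Real.rpow_natCast 2 n]
      exact Real.rpow_le_rpow_of_exponent_le (by norm_num) (by nlinarith)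
    obtain ⟨φ4, hφ4, hφ4s⟩ := exists_fml4 (show 0 < n by omega) f
    have hc4 : c ≤ 2 ^ (2 * n) := by
      refine (hf φ4 hφ4).trans ?_
      rw [pow_mul]
      exact_mod_cast hφ4s
    have htriv : c * 2 ^ ((1 - ε) * (n : ℝ)) ≤ 2 ^ (3 * n) := by
      calc c * 2 ^ ((1 - ε) * (n : ℝ)) ≤ 2 ^ (2 * n) * 2 ^ n :=
            mul_le_mul hc4 hx1 (Real.rpow_nonneg (by norm_num) _) (by positivity)
        _ = 2 ^ (3 * n) := by rw [← pow_add]; congr 1; ring
    have hQ1 : (1 : ℝ) ≤ 2 ^ Q := one_le_pow₀ (by norm_num)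
    have hl1 : (1 : ℝ) ≤ P.leaves := by exact_mod_cast leaves_pos P
    rcases le_or_gt Q (3 * n) with hQ | hQ
    swap
    · have h6 : (2 : ℝ) ^ (3 * n) ≤ 2 ^ Q := pow_le_pow_right₀ (by norm_num) hQ.le
      nlinarith
    rcases le_or_gt P.leaves (2 ^ (3 * n)) with hL | hL
    swap
    · have h6 : (2 : ℝ) ^ (3 * n) ≤ P.leaves := by exact_mod_cast hL.le
      nlinarith
    have h7 : c * 2 ^ ((1 - ε') * (n : ℝ)) ≤
        2 ^ Q * P.leaves * (2 ^ (ε' * (n : ℝ)) * (2 * ((n : ℝ) ^ 2 + 1))) := by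
      rcases hM with hM | hM
      · exact hsize f P Q v c hfc hP hv hdep hQ hL hM hf hc.le
      · have hfc' : NonConst (fun x => ! f x) := by
          obtain ⟨⟨x, hx⟩, ⟨y, hy⟩⟩ := hfc
          exact ⟨⟨y, by simp [hy]⟩, ⟨x, by simp [hx]⟩⟩
        have := hsize (fun x => ! f x) P.swap Q v c hfc' (solves_swap P f g hP) hv
          (by rw [depth_swap]; exact hdep) hQ (by rw [leaves_swap]; exact hL)
          (by rw [depth_swap]; exact hM) (fml_neg f _ hf) hc.le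
        rwa [leaves_swap] at this
    have h8 := h5' n hn5
    have e1 : (2 : ℝ) ^ ((1 - ε') * (n : ℝ)) = 2 ^ ((1 - 3 * ε') * n) * (2 ^ (ε' * n) * 2 ^ (ε' * n)) := by
      rw [← Real.rpow_add (by norm_num), ← Real.rpow_add (by norm_num)]
      congr 1
      ring
    have e2 : (2 : ℝ) ^ ((1 - ε) * (n : ℝ)) ≤ 2 ^ ((1 - 3 * ε') * n) :=
      Real.rpow_le_rpow_of_exponent_le (by norm_num) (by nlinarith)
    have e3 : (0 : ℝ) < 2 ^ (ε' * (n : ℝ)) := Real.rpow_pos_of_pos (by norm_num) _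
    have e4 : (0 : ℝ) ≤ 2 ^ Q * P.leaves := by positivity
    have h9 : (c * 2 ^ ((1 - 3 * ε') * (n : ℝ))) * (2 ^ (ε' * (n : ℝ)) * 2 ^ (ε' * (n : ℝ))) ≤
        (2 ^ Q * P.leaves) * (2 ^ (ε' * (n : ℝ)) * 2 ^ (ε' * (n : ℝ))) := by
      calc (c * 2 ^ ((1 - 3 * ε') * (n : ℝ))) * (2 ^ (ε' * (n : ℝ)) * 2 ^ (ε' * (n : ℝ)))
          = c * 2 ^ ((1 - ε') * (n : ℝ)) := by rw [e1]; ring
        _ ≤ 2 ^ Q * P.leaves * (2 ^ (ε' * (n : ℝ)) * (2 * ((n : ℝ) ^ 2 + 1))) := h7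
        _ ≤ 2 ^ Q * P.leaves * (2 ^ (ε' * (n : ℝ)) * 2 ^ (ε' * (n : ℝ))) :=
          mul_le_mul_of_nonneg_left (mul_le_mul_of_nonneg_left h8 e3.le) e4
    have h10 := le_of_mul_le_mul_right h9 (mul_pos e3 e3)
    exact le_trans (mul_le_mul_of_nonneg_left e2 hc.le) h10

end MP979
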