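import Pool.Agent.Lib.MP_979eef_lc.R.Sto
import Pool.Agent.Lib.MP_979eef_lc.Q.Res

/-!
# MP_979eef_lc, one-sided protocols, module Key: the key lemma

Proof, `q = Fintype.card Z`. Pigeonhole on the map `y ↦ (y i)_(i ∈ J0)` from `Y'` to `J0 → Z`: there
is `y0 ∈ Y'` such that `Y'' = cell Y' J0 y0` has `Y'.card ≤ q ^ J0.card * Y''.card`. Let
`V' = cell V J0 y0`: in `Fam S θ (t + J0.card)` (fix one coordinate at a time, `fam_fix`;
`cell V (insert i J) ζ = cell (cell V J ζ) {i} ζ`). Remainders `rem θ J0 V' k` (strictly decreasing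
while nonempty; for the tools see the private lemmas of Q/Res: `res_rem_lt`, `res_part_good`, copy
them under the prefix `key_`). Let `K` be the first `k` with `(rem θ J0 V' k).card < Y''.card`
(`Y''` is nonempty, so `K` exists and `K > 0` since `Y'' ⊆ V' = rem 0`). Some `y ∈ Y''` is not in
`rem K`, so there is `k < K` with `y ∈ rem k`, `y ∉ rem (k + 1)`, i.e. `y ∈ part θ J0 (rem k) =
cut θ J0 k V'`, and `Y''.card ≤ (rem k).card`. `part` is a `GoodCell` `(J, ζ)` of `rem k`: `J` disjoint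
from `J0`, `(rem k).card * θ ^ J.card ≤ (cell (rem k) J ζ).card * q ^ J.card`, dense outside `J0 ∪ J`.
All elements of this cell agree with `y` on `J0 ∪ J`, hence (`dense_univ 1`)
`(cell ..).card * q ^ (J.card + J0.card) ≤ q ^ n`. Together
`Y'.card * θ ^ J.card ≤ q ^ J0.card * Y''.card * θ ^ J.card ≤ q ^ n ≤ 2 ^ T * Y'.card`, so
`θ ^ J.card ≤ 2 ^ T < θ ^ (C + 1)` and `J.card ≤ C`. Take `a ∈ A` of `hA J`. `Hits` for the cell (in
`Fam S θ (t + J0.card + 1)` by `fam_cut`; nonempty, it contains `y`) with `F = J0 ∪ J` and pattern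
`a`: `w` in the cell with `G i (w i) = a i` outside `J0 ∪ J`; on `J0 ∪ J`: `w i = y i`, so
`G i (w i) = b i = a i`. So `(fun i => G i (w i)) = a ∈ A`.
-/

set_option autoImplicit false

namespace MP979

open Finset

variable {n : ℕ} {Z : Type} [Fintype Z] [DecidableEq Z]

private theorem key_mem {W : Finset (Fin n → Z)} {J : Finset (Fin n)} {ζ w : Fin n → Z} :
    w ∈ cell W J ζ ↔ w ∈ W ∧ ∀ i ∈ J, w i = ζ i := by
  unfold cell
  exact mem_filter

private theorem key_part_subset (θ : ℕ) (F : Finset (Fin n)) (R : Finset (Fin n → Z)) :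
    part θ F R ⊆ R := by
  classical
  unfold part
  split_ifs with h
  · exact Finset.filter_subset _ _
  · exact Finset.Subset.refl _

private theorem key_part_good {θ : ℕ} (hθ : 1 ≤ θ) (F : Finset (Fin n))
    {R : Finset (Fin n → Z)} (hR : R.Nonempty) :
    ∃ c, GoodCell θ F R c ∧ part θ F R = cell R c.1 c.2 := by
  classical
  have h := good_exists hθ F hR
  refine ⟨Classical.choose h, Classical.choose_spec h, ?_⟩
  unfold part
  rw [dif_pos h]

private theorem key_part_nonempty {θ : ℕ} (hθ : 1 ≤ θ) (F : Finset (Fin n))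
    {R : Finset (Fin n → Z)} (hR : R.Nonempty) : (part θ F R).Nonempty := by
  obtain ⟨c, hc, he⟩ := key_part_good hθ F hR
  rw [he]
  obtain ⟨_, h2, _⟩ := hc
  have h3 : 0 < R.card * θ ^ c.1.card := Nat.mul_pos hR.card_pos (pow_pos (by omega) _)
  have h4 : 0 < (cell R c.1 c.2).card * Fintype.card Z ^ c.1.card := lt_of_lt_of_le h3 h2
  exact Finset.card_pos.mp (Nat.pos_of_mul_pos_right h4)

private theorem key_rem_subset (θ : ℕ) (F : Finset (Fin n)) (W : Finset (Fin n → Z)) (k : ℕ) :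
    rem θ F W k ⊆ W := by
  induction k with
  | zero => exact Finset.Subset.refl _
  | succ k ih => exact (Finset.sdiff_subset).trans ih

private theorem key_rem_card {θ : ℕ} (hθ : 1 ≤ θ) (F : Finset (Fin n))
    (W : Finset (Fin n → Z)) (k : ℕ) :
    rem θ F W k = ∅ ∨ (rem θ F W k).card + k ≤ W.card := by
  induction k with
  | zero => exact Or.inr (le_refl _)
  | succ k ih =>
    have hs : rem θ F W (k + 1) = rem θ F W k \ part θ F (rem θ F W k) := rfl
    rcases Finset.eq_empty_or_nonempty (rem θ F W k) with he | hne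
    · left
      rw [hs, he]
      exact Finset.empty_sdiff _
    · right
      rcases ih with he | ih
      · exact absurd he hne.ne_empty
      · have h1 := key_part_nonempty hθ F hne
        have h2 := key_part_subset θ F (rem θ F W k)
        have h3 : (rem θ F W (k + 1)).card + (part θ F (rem θ F W k)).card =
            (rem θ F W k).card := by
          rw [hs]
          exact Finset.card_sdiff_add_card_eq_card h2
        have h4 := h1.card_pos
        omega

private theorem key_rem_lt {θ : ℕ} (hθ : 1 ≤ θ) (F : Finset (Fin n))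
    (W : Finset (Fin n → Z)) (k : ℕ) (h : (rem θ F W k).Nonempty) : k < W.card := by
  rcases key_rem_card hθ F W k with he | h1
  · exact absurd he h.ne_empty
  · have := h.card_pos
    omega

private theorem key_fam {S : Finset ((Fin n → Z) → Bool)} {θ t : ℕ} {V : Finset (Fin n → Z)}
    (hV : V ∈ Fam S θ t) (J : Finset (Fin n)) (ζ : Fin n → Z) :
    cell V J ζ ∈ Fam S θ (t + J.card) := by
  induction J using Finset.induction_on with
  | empty =>
    have e : cell V ∅ ζ = V := by
      ext w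
      rw [key_mem]
      simp
    rw [e, card_empty]
    exact hV
  | insert i J hi ih =>
    have e : cell V (insert i J) ζ = cell (cell V J ζ) {i} ζ := by
      ext w
      rw [key_mem, key_mem, key_mem]
      constructor
      · rintro ⟨h1, h2⟩
        exact ⟨⟨h1, fun j hj => h2 j (mem_insert_of_mem hj)⟩, fun j hj => by
          rw [mem_singleton] at hj
          rw [hj]
          exact h2 i (mem_insert_self _ _)⟩
      · rintro ⟨⟨h1, h2⟩, h3⟩
        refine ⟨h1, fun j hj => ?_⟩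
        rcases mem_insert.1 hj with hj | hj
        · rw [hj]
          exact h3 i (mem_singleton_self _)
        · exact h2 j hj
    rw [e, card_insert_of_notMem hi, ← add_assoc]
    exact fam_fix ih i ζ

private theorem key_pigeon (J0 : Finset (Fin n)) {Y' : Finset (Fin n → Z)} (hne : Y'.Nonempty) :
    ∃ y0 ∈ Y', Y'.card ≤ Fintype.card Z ^ J0.card * (cell Y' J0 y0).card := by
  classical
  by_contra hcon
  push Not at hcon
  have h1 : Y'.card = ∑ p : J0 → Z, (Y'.filter (fun w => (fun i : J0 => w i.1) = p)).card :=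
    card_eq_sum_card_fiberwise (fun _ _ => mem_coe.2 (mem_univ _))
  have hq : (univ : Finset (J0 → Z)).card = Fintype.card Z ^ J0.card := by
    rw [card_univ, Fintype.card_fun, Fintype.card_coe]
  obtain ⟨y1, hy1⟩ := hne
  have h2 : ∑ p : J0 → Z, Fintype.card Z ^ J0.card *
      (Y'.filter (fun w => (fun i : J0 => w i.1) = p)).card < ∑ _p : J0 → Z, Y'.card := by
    refine sum_lt_sum_of_nonempty ⟨fun i => y1 i.1, mem_univ _⟩ ?_
    intro p _
    rcases (Y'.filter (fun w => (fun i : J0 => w i.1) = p)).eq_empty_or_nonempty with h | ⟨y, hy⟩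
    · rw [h, card_empty, mul_zero]
      exact card_pos.2 ⟨y1, hy1⟩
    · have hy' := mem_filter.1 hy
      have h3 := hcon y hy'.1
      refine lt_of_le_of_lt (Nat.mul_le_mul_left _ (card_le_card ?_)) h3
      intro w hw
      rw [mem_filter] at hw
      rw [key_mem]
      refine ⟨hw.1, fun i hi => ?_⟩
      have e1 := congrFun hw.2 ⟨i, hi⟩
      have e2 := congrFun hy'.2 ⟨i, hi⟩
      exact e1.trans e2.symm
  rw [← mul_sum, ← h1, sum_const, hq, smul_eq_mul] at h2
  exact lt_irrefl _ h2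

theorem os_key {G : Fin n → Z → Bool} {S : Finset ((Fin n → Z) → Bool)} {θ tm t C T : ℕ}
    (hθ : 1 ≤ θ) (hG : ∀ t ≤ tm, Hits G θ (Fam S θ t)) {V : Finset (Fin n → Z)}
    (hV : V ∈ Fam S θ t) (J0 : Finset (Fin n)) (ht : t + J0.card + 1 ≤ tm)
    {Y' : Finset (Fin n → Z)} (hY : Y' ⊆ V) (hne : Y'.Nonempty) {b : Fin n → Bool}
    (hb : ∀ y ∈ Y', ∀ i, G i (y i) = b i) (hM : Fintype.card Z ^ n ≤ 2 ^ T * Y'.card)
    (hT : 2 ^ T < θ ^ (C + 1)) {A : Set (Fin n → Bool)}
    (hA : ∀ J : Finset (Fin n), J.card ≤ C → ∃ a ∈ A, (∀ i ∈ J, a i = b i) ∧ ∀ i ∈ J0, a i = b i) :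
    ∃ y ∈ Y', ∃ w ∈ V, (∀ i ∈ J0, w i = y i) ∧ (fun i => G i (w i)) ∈ A := by
  classical
  set q := Fintype.card Z with hq
  obtain ⟨y0, hy0, hpig⟩ := key_pigeon J0 hne
  set Y2 := cell Y' J0 y0 with hY2
  set V' := cell V J0 y0 with hV'
  have hY2V : Y2 ⊆ V' := by
    intro w hw
    rw [hY2, key_mem] at hw
    rw [hV', key_mem]
    exact ⟨hY hw.1, hw.2⟩
  have hy0Y : y0 ∈ Y2 := by
    rw [hY2, key_mem]
    exact ⟨hy0, fun _ _ => rfl⟩
  have hY2pos : 0 < Y2.card := card_pos.2 ⟨y0, hy0Y⟩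
  have hex : ∃ k, (rem θ J0 V' k).card < Y2.card := by
    refine ⟨V'.card, ?_⟩
    have h0 : rem θ J0 V' V'.card = ∅ := by
      rcases Finset.eq_empty_or_nonempty (rem θ J0 V' V'.card) with h | h
      · exact h
      · exact absurd (key_rem_lt hθ J0 V' _ h) (lt_irrefl _)
    rw [h0, card_empty]
    exact hY2pos
  have hK := Nat.find_spec hex
  have hmin : ∀ k, k < Nat.find hex → Y2.card ≤ (rem θ J0 V' k).card := by
    intro k hk
    exact not_lt.1 (Nat.find_min hex hk)
  obtain ⟨y, hyY2, hyK⟩ : ∃ y ∈ Y2, y ∉ rem θ J0 V' (Nat.find hex) := by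
    by_contra hcon
    push Not at hcon
    exact absurd (card_le_card hcon) (not_le.2 hK)
  obtain ⟨k, hkK, hyk, hyk1⟩ : ∃ k, k < Nat.find hex ∧ y ∈ rem θ J0 V' k ∧
      y ∉ rem θ J0 V' (k + 1) := by
    by_contra hcon
    push Not at hcon
    have key : ∀ k, k ≤ Nat.find hex → y ∈ rem θ J0 V' k := by
      intro k
      induction k with
      | zero => intro _; exact hY2V hyY2
      | succ k ih =>
        intro hk
        exact hcon k (by omega) (ih (by omega))
    exact hyK (key _ le_rfl)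
  have hypart : y ∈ part θ J0 (rem θ J0 V' k) := by
    by_contra hp
    exact hyk1 (mem_sdiff.2 ⟨hyk, hp⟩)
  have hRne : (rem θ J0 V' k).Nonempty := ⟨y, hyk⟩
  obtain ⟨⟨J, ζ⟩, ⟨g1, g2, g3⟩, he⟩ := key_part_good hθ J0 hRne
  simp only at g1 g2 g3 he
  have hycell : y ∈ cell (rem θ J0 V' k) J ζ := by rw [← he]; exact hypart
  have hyY' : y ∈ Y' := (key_mem.1 (hY2 ▸ hyY2)).1
  have hyy0 : ∀ i ∈ J0, y i = y0 i := (key_mem.1 (hY2 ▸ hyY2)).2
  have hagree : ∀ v ∈ cell (rem θ J0 V' k) J ζ, (v ∈ V) ∧ (∀ i ∈ J0, v i = y i) ∧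
      ∀ i ∈ J, v i = y i := by
    intro v hv
    rw [key_mem] at hv hycell
    have h1 : v ∈ V' := key_rem_subset θ J0 V' k hv.1
    rw [hV', key_mem] at h1
    exact ⟨h1.1, fun i hi => (h1.2 i hi).trans (hyy0 i hi).symm,
      fun i hi => (hv.2 i hi).trans (hycell.2 i hi).symm⟩
  have hcard : (cell (rem θ J0 V' k) J ζ).card * q ^ (J0.card + J.card) ≤ q ^ n := by
    have h1 := dense_univ 1 le_rfl (J0 ∪ J) (disjoint_empty_right _) y
    rw [one_pow, mul_one, card_univ, Fintype.card_fun, Fintype.card_fin,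
      card_union_of_disjoint g1.symm] at h1
    refine le_trans (Nat.mul_le_mul_right _ (card_le_card ?_)) h1
    intro v hv
    obtain ⟨_, h2, h3⟩ := hagree v hv
    rw [key_mem]
    refine ⟨mem_univ _, fun i hi => ?_⟩
    rcases mem_union.1 hi with hi | hi
    · exact h2 i hi
    · exact h3 i hi
  have hYpos : 0 < Y'.card := card_pos.2 hne
  have hJC : J.card ≤ C := by
    have h1 : Y'.card * θ ^ J.card ≤ Y'.card * 2 ^ T := by
      calc Y'.card * θ ^ J.card ≤ (q ^ J0.card * Y2.card) * θ ^ J.card :=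
            Nat.mul_le_mul_right _ hpig
        _ ≤ (q ^ J0.card * (rem θ J0 V' k).card) * θ ^ J.card :=
            Nat.mul_le_mul_right _ (Nat.mul_le_mul_left _ (hmin k hkK))
        _ = q ^ J0.card * ((rem θ J0 V' k).card * θ ^ J.card) := by ring
        _ ≤ q ^ J0.card * ((cell (rem θ J0 V' k) J ζ).card * q ^ J.card) :=
            Nat.mul_le_mul_left _ g2
        _ = (cell (rem θ J0 V' k) J ζ).card * q ^ (J0.card + J.card) := by ring
        _ ≤ q ^ n := hcard
        _ ≤ 2 ^ T * Y'.card := hM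
        _ = Y'.card * 2 ^ T := by ring
    have h2 : θ ^ J.card ≤ 2 ^ T := Nat.le_of_mul_le_mul_left h1 hYpos
    by_contra hcon
    push Not at hcon
    have h3 : θ ^ (C + 1) ≤ θ ^ J.card := Nat.pow_le_pow_right hθ (by omega)
    omega
  obtain ⟨a, haA, haJ, haJ0⟩ := hA J hJC
  have hfam : cut θ J0 k V' ∈ Fam S θ (t + J0.card + 1) :=
    fam_cut (key_fam hV J0 y0) J0 (key_rem_lt hθ J0 V' k hRne)
  have hcut : cut θ J0 k V' = cell (rem θ J0 V' k) J ζ := he
  obtain ⟨w, hwE, hw⟩ := hG _ ht _ hfam ⟨y, hypart⟩ (J0 ∪ J) (by rw [hcut]; exact g3) a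
  rw [hcut] at hwE
  obtain ⟨w1, w2, w3⟩ := hagree w hwE
  refine ⟨y, hyY', w, w1, w2, ?_⟩
  have hwa : (fun i => G i (w i)) = a := by
    funext i
    by_cases hi : i ∈ J0 ∪ J
    · rcases mem_union.1 hi with h | h
      · rw [w2 i h, hb y hyY' i, haJ0 i h]
      · rw [w3 i h, hb y hyY' i, haJ i h]
    · exact hw i hi
  rw [hwa]
  exact haA

end MP979
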