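import Pool.Agent.Lib.MP_979eef_lc.R.Ste
import Pool.Agent.Lib.MP_979eef_lc.Q.Si

/-!
# MP_979eef_lc, one-sided protocols, module Mai: the induction along the protocol

`os_main`, induction on `k` (for all the other data). Write `K a Q k = 2 ^ a * (k + Q)`.

Base `k = 0` and `P = leaf i`: `P.depth ≤ D`, so `P.leaves ≤ 2 ^ D` (`leaves_le`, Q/Si). The state
does not change (`os_mono`: if `0 ≤ M`, `0 ≤ c` then `M ≤ 2 ^ K * M`). If `X` or `Y` is empty take
`ψ = and (lit i true) (lit i false)` (size 2, always false; `0 < n`), `J = ∅`; else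
`exists_fml_size` (Q/Si.lean).

`P = bob m P P'`: `os_bob`, then the induction hypothesis for the child of the bit `s` with
`Y_s = {y ∈ Y | m y = s}` (`Correct.bob1`, `P.Correct X Y_true`, `P'.Correct X Y_false`; see Q/Kw.lean).
`2 ^ (K (k+1)) * M / 2 ≥ 2 ^ (K k) * M` because `K (k + 1) ≥ K k + 1`.

`P = alice m P P'`, four cases.
(i) `InBlocks J P`, `J.card ≤ v`: the state does not change, `ψ` = the false formula, `J`: for `x ∈ X`,
`y ∈ Y` the variable `P.run x y` lies in a block of `J` (`run_inBlocks`, Q/Si) and `x`, `y` differ in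
it. `J.card ≤ v ≤ 2 ^ a * v`.
(ii) arbitrary message, `a = a' + 1`: induction hypothesis for `P` with `X0 = {x ∈ X | m x = true}` and
with `2 ^ (K a' Q k) * M`, `2 ^ (K a' Q k) * c` in place of `M`, `c` (`K (a'+1) Q (k+1) ≥ 2 K a' Q k`),
output `Y1, W1, A1, B1, ψ1, J1`; then the induction hypothesis for `P'` with `{x ∈ X | m x = false}`,
from `Y1, W1, A1, B1` (`P'` is correct on the smaller set), output `Y2 ⊆ Y1, ..., ψ2, J2`. Take
`ψ = or ψ1 ψ2`, `J = J1 ∪ J2`.
(iii) `m ∈ 𝓗`: `os_fun`; induction hypothesis for the child of `s` with `{x ∈ X | m x = s}`; the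
functions in `m :: H` are constant on `W' = W.filter (m (inp w) = s)`. In `Outp`: all `w ∈ W'` have
`m (inp w) = s`.
(iv) `L`: `os_funs` for `L`, then `os_val` (by `MsgH`, `hg` and constancy of `H ++ L` on `W'`), then the
induction hypothesis with `Q - L.length`, `X_s = {x ∈ X | m x = s}`; `2 ^ a * (k + 1 + Q) ≥ L.length + 1 +
2 ^ a * (k + (Q - L.length))`. In `Outp` for `w ∈ W''` with `G(w) ∈ A''`: `m (inp w) = s`, so
`inp w ∈ X` gives `inp w ∈ X_s`.
In all cases `Outp` passes from `X_s` to `X`.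
-/

set_option autoImplicit false

namespace MP979

open Finset

private theorem mai_pow {x y : ℕ} (h : x ≤ y) {M : ℝ} (hM : 0 ≤ M) :
    (2 : ℝ) ^ x * M ≤ 2 ^ y * M :=
  mul_le_mul_of_nonneg_right (pow_le_pow_right₀ (by norm_num) h) hM

private theorem mai_half {x y : ℕ} (h : x + 1 ≤ y) {M : ℝ} (hM : 0 ≤ M) :
    (2 : ℝ) ^ x * M ≤ 2 ^ y * M / 2 := by
  have := mai_pow h hM
  rw [pow_succ] at this
  linarith

private theorem mai_self {x : ℕ} {M : ℝ} (hM : 0 ≤ M) : M ≤ 2 ^ x * M := by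
  have := mai_pow (Nat.zero_le x) hM
  simpa using this

private theorem mai_ff {n : ℕ} (hn : 0 < n) :
    ∃ ψ : Fml (Fin n × Fin n), ψ.size = 2 ∧ ∀ x, ψ.eval x = false := by
  refine ⟨.and (.lit (⟨0, hn⟩, ⟨0, hn⟩) true) (.lit (⟨0, hn⟩, ⟨0, hn⟩) false), rfl, fun x => ?_⟩
  simp only [Fml.eval]
  cases x (⟨0, hn⟩, ⟨0, hn⟩) <;> rfl

private theorem mai_end {n D : ℕ} (hn : 0 < n) (hD : 1 ≤ D) {X Y : Set (Fin n × Fin n → Bool)}
    {P : Prot (Fin n × Fin n)} (hP : P.depth ≤ D) (hC : P.Correct X Y) :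
    ∃ ψ : Fml (Fin n × Fin n), ψ.size ≤ 2 ^ D ∧ (∀ y ∈ Y, ψ.eval y = false) ∧
      ∀ x ∈ X, ∀ y ∈ Y, ψ.eval x = true := by
  obtain ⟨ψ0, h0, h0'⟩ := mai_ff hn
  have h2 : 2 ≤ 2 ^ D := by
    calc 2 = 2 ^ 1 := rfl
      _ ≤ 2 ^ D := Nat.pow_le_pow_right (by norm_num) hD
  by_cases hX : X.Nonempty
  · by_cases hY : Y.Nonempty
    · obtain ⟨φ, h1, h3, h4⟩ := exists_fml_size P hX hY hC
      refine ⟨φ, ?_, h4, fun x hx _ _ => h3 x hx⟩
      calc φ.size ≤ P.leaves := h1
        _ ≤ 2 ^ P.depth := leaves_le P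
        _ ≤ 2 ^ D := Nat.pow_le_pow_right (by norm_num) hP
    · exact ⟨ψ0, by omega, fun y _ => h0' y, fun x _ y hy => absurd ⟨y, hy⟩ hY⟩
  · exact ⟨ψ0, by omega, fun y _ => h0' y, fun x hx => absurd ⟨x, hx⟩ hX⟩

variable {n : ℕ} {Z : Type} [Fintype Z] [DecidableEq Z]

private theorem mai_child {P P' : Prot (Fin n × Fin n)} {m : (Fin n × Fin n → Bool) → Bool}
    {X Y : Set (Fin n × Fin n → Bool)} (h : (Prot.alice m P P').Correct X Y) (s : Bool) :
    (if s then P else P').Correct {x | x ∈ X ∧ m x = s} Y := by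
  have := Correct.alice1 h
  cases s with
  | true => exact this.1
  | false => exact this.2

private theorem mai_childB {P P' : Prot (Fin n × Fin n)} {m : (Fin n × Fin n → Bool) → Bool}
    {X Y : Set (Fin n × Fin n → Bool)} (h : (Prot.bob m P P').Correct X Y) (s : Bool) :
    (if s then P else P').Correct X {y | y ∈ Y ∧ m y = s} := by
  have := Correct.bob1 h
  cases s with
  | true => exact this.1
  | false => exact this.2

private theorem mai_depth {P P' : Prot (Fin n × Fin n)} {d : ℕ}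
    (h : max P.depth P'.depth + 1 ≤ d + 1) (s : Bool) : (if s then P else P').depth ≤ d := by
  have h1 := le_max_left P.depth P'.depth
  have h2 := le_max_right P.depth P'.depth
  cases s with
  | true => change P.depth ≤ d; omega
  | false => change P'.depth ≤ d; omega

private theorem mai_side {g : (Fin n → Bool) → Bool}
    {𝓗 : Finset ((Fin n × Fin n → Bool) → Bool)} {v k a Q : ℕ}
    {H : List ((Fin n × Fin n → Bool) → Bool)} {P P' : Prot (Fin n × Fin n)}
    (h : OneSided g 𝓗 v k a Q H P) (h' : OneSided g 𝓗 v k a Q H P') (s : Bool) :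
    OneSided g 𝓗 v k a Q H (if s then P else P') := by
  cases s with
  | true => exact h
  | false => exact h'

theorem os_main {G : Fin n → Z → Bool} {inp : (Fin n → Z) → (Fin n × Fin n → Bool)}
    {S : Finset ((Fin n → Z) → Bool)} {θ v D : ℕ} {g : (Fin n → Bool) → Bool}
    {𝓗 : Finset ((Fin n × Fin n → Bool) → Bool)} (hn : 0 < n) (hD : 1 ≤ D)
    (hg : ∀ w i, g (blk (inp w) i) = G i (w i))
    (hS : ∀ φ ∈ 𝓗, (fun w => φ (inp w)) ∈ S) (k : ℕ) :
    ∀ (a Q : ℕ) (H : List ((Fin n × Fin n → Bool) → Bool)) (P : Prot (Fin n × Fin n))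
      (X Y : Set (Fin n × Fin n → Bool)) (W : Finset (Fin n → Z)) (A B : Set (Fin n → Bool))
      (t : ℕ) (M c : ℝ), 0 ≤ M → 0 ≤ c → OneSided g 𝓗 v k a Q H P → P.Correct X Y →
      P.depth ≤ k + D → (∀ h ∈ H, ∀ w ∈ W, ∀ w' ∈ W, h (inp w) = h (inp w')) →
      Os G inp S θ Y W A B t (2 ^ (2 ^ a * (k + Q)) * M) (2 ^ (2 ^ a * (k + Q)) * c) →
    ∃ Y' W' A' B' ψ J, Y' ⊆ Y ∧ W' ⊆ W ∧ A' ⊆ A ∧ B' ⊆ B ∧
      Os G inp S θ Y' W' A' B' (t + 2 ^ a * (k + Q)) M c ∧ ψ.size ≤ 2 ^ (a + D) ∧
      J.card ≤ 2 ^ a * v ∧ Outp G inp X Y' W' A' ψ J := by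
  induction k with
  | zero =>
    intro a Q H P X Y W A B t M c hM hc _ hP hd _ hos
    obtain ⟨ψ, h1, h2, h3⟩ := mai_end hn hD (by omega) hP
    refine ⟨Y, W, A, B, ψ, ∅, subset_rfl, subset_rfl, subset_rfl, subset_rfl,
      os_mono hos (by omega) (mai_self hM) (mai_self hc),
      h1.trans (Nat.pow_le_pow_right (by norm_num) (by omega)), by simp, h2, ?_⟩
    intro w _ _ hw y hy
    exact Or.inl (h3 _ hw y hy)
  | succ k ih =>
    intro a Q H P X Y W A B t M c hM hc hone hP hd hH hos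
    have h2a : 1 ≤ 2 ^ a := Nat.one_le_two_pow
    have hK : 2 ^ a * (k + Q) + 2 ^ a = 2 ^ a * (k + 1 + Q) := by ring
    cases P with
    | leaf i =>
      obtain ⟨ψ, h1, h2, h3⟩ := mai_end (D := D) hn hD (P := .leaf i) (by simp [Prot.depth]) hP
      refine ⟨Y, W, A, B, ψ, ∅, subset_rfl, subset_rfl, subset_rfl, subset_rfl,
        os_mono hos (by omega) (mai_self hM) (mai_self hc),
        h1.trans (Nat.pow_le_pow_right (by norm_num) (by omega)), by simp, h2, ?_⟩
      intro w _ _ hw y hy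
      exact Or.inl (h3 _ hw y hy)
    | bob m P P' =>
      obtain ⟨ho1, ho2⟩ := hone
      obtain ⟨s, B', hB', h1⟩ := os_bob hos m
      have hd' : max P.depth P'.depth + 1 ≤ (k + D) + 1 := by
        have : max P.depth P'.depth + 1 ≤ k + 1 + D := hd
        omega
      obtain ⟨Y2, W2, A2, B2, ψ, J, hY2, hW2, hA2, hB2, hos2, hψ, hJ, hout⟩ :=
        ih a Q H (if s then P else P') X {y | y ∈ Y ∧ m y = s} W A B' t M c hM hc
          (mai_side ho1 ho2 s) (mai_childB hP s) (mai_depth hd' s) hH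
          (os_mono h1 le_rfl (mai_half (by omega) hM) (mai_half (by omega) hc))
      exact ⟨Y2, W2, A2, B2, ψ, J, fun y hy => (hY2 hy).1, hW2, hA2, hB2.trans hB',
        os_mono hos2 (by omega) le_rfl le_rfl, hψ, hJ, hout⟩
    | alice m P P' =>
      have hd' : max P.depth P'.depth + 1 ≤ (k + D) + 1 := by
        have : max P.depth P'.depth + 1 ≤ k + 1 + D := hd
        omega
      rcases hone with ⟨J, hJ, hin⟩ | ⟨a', ha', ho1, ho2⟩ | ⟨hm, ho1, ho2⟩ |
        ⟨L, hLQ, hL, hmsg, ho1, ho2⟩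
      · obtain ⟨ψ0, h0, h0'⟩ := mai_ff hn
        refine ⟨Y, W, A, B, ψ0, J, subset_rfl, subset_rfl, subset_rfl, subset_rfl,
          os_mono hos (by omega) (mai_self hM) (mai_self hc), ?_, ?_, fun y _ => h0' y, ?_⟩
        · rw [h0]
          calc 2 = 2 ^ 1 := rfl
            _ ≤ 2 ^ (a + D) := Nat.pow_le_pow_right (by norm_num) (by omega)
        · calc J.card ≤ v := hJ
            _ = 1 * v := (one_mul v).symm
            _ ≤ 2 ^ a * v := Nat.mul_le_mul_right v h2a
        · intro w _ _ hw y hy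
          right
          refine ⟨((Prot.alice m P P').run (inp w) y).1, run_inBlocks hin _ _, ?_⟩
          intro he
          apply hP _ hw y hy
          exact congrFun he ((Prot.alice m P P').run (inp w) y).2
      · subst ha'
        have hKK : 2 ^ a' * (k + Q) + 2 ^ a' * (k + Q) ≤ 2 ^ (a' + 1) * (k + 1 + Q) := by
          have : 2 ^ (a' + 1) * (k + 1 + Q) = 2 ^ a' * (k + Q) + 2 ^ a' * (k + Q) +
            2 * 2 ^ a' := by ring
          omega
        have hM1 : 0 ≤ (2 : ℝ) ^ (2 ^ a' * (k + Q)) * M := by positivity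
        have hc1 : 0 ≤ (2 : ℝ) ^ (2 ^ a' * (k + Q)) * c := by positivity
        have hC := Correct.alice1 hP
        have hle : ∀ {M : ℝ}, 0 ≤ M → (2 : ℝ) ^ (2 ^ a' * (k + Q)) *
            (2 ^ (2 ^ a' * (k + Q)) * M) ≤ 2 ^ (2 ^ (a' + 1) * (k + 1 + Q)) * M := by
          intro M hM
          rw [← mul_assoc, ← pow_add]
          exact mai_pow hKK hM
        obtain ⟨Y1, W1, A1, B1, ψ1, J1, hY1, hW1, hA1, hB1, hos1, hψ1, hJ1, hout1⟩ :=
          ih a' Q H P {x | x ∈ X ∧ m x = true} Y W A B t _ _ hM1 hc1 ho1 hC.1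
            (mai_depth hd' true) hH (os_mono hos le_rfl (hle hM) (hle hc))
        obtain ⟨Y2, W2, A2, B2, ψ2, J2, hY2, hW2, hA2, hB2, hos2, hψ2, hJ2, hout2⟩ :=
          ih a' Q H P' {x | x ∈ X ∧ m x = false} Y1 W1 A1 B1 _ M c hM hc ho2
            (fun x hx y hy => hC.2 x hx y (hY1 hy)) (mai_depth hd' false)
            (fun h hh w hw w' hw' => hH h hh w (hW1 hw) w' (hW1 hw')) hos1
        refine ⟨Y2, W2, A2, B2, .or ψ1 ψ2, J1 ∪ J2, hY2.trans hY1, hW2.trans hW1, hA2.trans hA1,
          hB2.trans hB1, os_mono hos2 (by omega) le_rfl le_rfl, ?_, ?_, ?_, ?_⟩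
        · have : 2 ^ (a' + 1 + D) = 2 ^ (a' + D) + 2 ^ (a' + D) := by ring
          simp only [Fml.size]
          omega
        · have h5 := card_union_le J1 J2
          have h6 : 2 ^ (a' + 1) * v = 2 ^ a' * v + 2 ^ a' * v := by ring
          omega
        · intro y hy
          simp only [Fml.eval, hout1.1 y (hY2 hy), hout2.1 y hy, Bool.or_false]
        · intro w hw hwA hwX y hy
          cases hmw : m (inp w) with
          | true =>
            rcases hout1.2 w (hW2 hw) (hA2 hwA) ⟨hwX, hmw⟩ y (hY2 hy) with h | ⟨i, hi, h⟩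
            · left
              simp only [Fml.eval, h, Bool.true_or]
            · exact Or.inr ⟨i, mem_union_left _ hi, h⟩
          | false =>
            rcases hout2.2 w hw hwA ⟨hwX, hmw⟩ y hy with h | ⟨i, hi, h⟩
            · left
              simp only [Fml.eval, h, Bool.or_true]
            · exact Or.inr ⟨i, mem_union_right _ hi, h⟩
      · obtain ⟨s, B', hB', h1⟩ := os_fun hos m (hS m hm)
        obtain ⟨Y2, W2, A2, B2, ψ, J, hY2, hW2, hA2, hB2, hos2, hψ, hJ, hout⟩ :=
          ih a Q (m :: H) (if s then P else P') {x | x ∈ X ∧ m x = s} Y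
            (W.filter (fun w => m (inp w) = s)) A B' (t + 1) M c hM hc
            (mai_side ho1 ho2 s) (mai_child hP s) (mai_depth hd' s) (by
              intro h hh w hw w' hw'
              rw [mem_filter] at hw hw'
              rcases List.mem_cons.1 hh with rfl | hh
              · rw [hw.2, hw'.2]
              · exact hH h hh w hw.1 w' hw'.1)
            (os_mono h1 le_rfl (mai_half (by omega) hM) (mai_half (by omega) hc))
        refine ⟨Y2, W2, A2, B2, ψ, J, hY2, hW2.trans (filter_subset _ _), hA2, hB2.trans hB',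
          os_mono hos2 (by omega) le_rfl le_rfl, hψ, hJ, hout.1, ?_⟩
        intro w hw hwA hwX y hy
        exact hout.2 w hw hwA ⟨hwX, (mem_filter.1 (hW2 hw)).2⟩ y hy
      · have hKL : L.length + (2 ^ a * (k + (Q - L.length)) + 1) ≤ 2 ^ a * (k + 1 + Q) := by
          obtain ⟨q, rfl⟩ := Nat.exists_eq_add_of_le hLQ
          rw [Nat.add_sub_cancel_left]
          have h5 : 2 ^ a * (k + 1 + (L.length + q)) = 2 ^ a * (k + q) + 2 ^ a +
            2 ^ a * L.length := by ring
          have h6 : L.length ≤ 2 ^ a * L.length := Nat.le_mul_of_pos_left _ (by omega)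
          omega
        have hle : ∀ {M : ℝ}, 0 ≤ M → (2 : ℝ) ^ L.length *
            (2 ^ (2 ^ a * (k + (Q - L.length)) + 1) * M) ≤ 2 ^ (2 ^ a * (k + 1 + Q)) * M := by
          intro M hM
          rw [← mul_assoc, ← pow_add]
          exact mai_pow hKL hM
        obtain ⟨W1, B1, hW1, hB1, hc1, hos1⟩ := os_funs L (fun h hh => hS h (hL h hh)) W B t _ _
          (os_mono hos le_rfl (hle hM) (hle hc))
        have hconst : ∀ h ∈ H ++ L, ∀ w ∈ W1, ∀ w' ∈ W1, h (inp w) = h (inp w') := by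
          intro h hh w hw w' hw'
          rcases List.mem_append.1 hh with hh | hh
          · exact hH h hh w (hW1 hw) w' (hW1 hw')
          · exact hc1 h hh w hw w' hw'
        obtain ⟨s, A1, hA1, hs, hos2⟩ := os_val hos1 m (by
          intro w hw w' hw' hww
          apply hmsg
          · intro i
            rw [hg, hg]
            exact hww i
          · intro i hi
            exact absurd hi (notMem_empty i)
          · intro h hh
            exact hconst h hh w hw w' hw')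
        obtain ⟨Y2, W2, A2, B2, ψ, J, hY2, hW2, hA2, hB2, hos3, hψ, hJ, hout⟩ :=
          ih a (Q - L.length) (H ++ L) (if s then P else P') {x | x ∈ X ∧ m x = s} Y W1 A1 B1
            (t + L.length) M c hM hc (mai_side ho1 ho2 s) (mai_child hP s) (mai_depth hd' s)
            hconst (os_mono hos2 le_rfl (mai_pow (by omega) hM) (mai_half le_rfl hc))
        refine ⟨Y2, W2, A2, B2, ψ, J, hY2, hW2.trans hW1, hA2.trans hA1, hB2.trans hB1,
          os_mono hos3 (by omega) le_rfl le_rfl, hψ, hJ, hout.1, ?_⟩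
        intro w hw hwA hwX y hy
        exact hout.2 w hw hwA ⟨hwX, hs w (hW2 hw) (hA2 hwA)⟩ y hy

end MP979
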