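import Pool.Agent.Lib.MP_979eef_lc.R.Sto
import Pool.Agent.Lib.MP_979eef_lc.Q.Hd

/-!
# MP_979eef_lc, one-sided protocols, module Ste: one message

`os_bob`: `Yb W Y b` is the disjoint union of `Yb W {y ∈ Y | m y = s} b`, `s : Bool`. Let `B s` be the
set of the `b ∈ B` with `M / 2 ≤ (Yb W {y ∈ Y | m y = s} b).card`. Then `B ⊆ B true ∪ B false`;
`hard_splitB` gives `s` with `HardQ A (B s) (c / 2)`.

`os_fun`: the same with `Yb (W.filter (m (inp w) = s)) Y b`; `fam_fun`.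

`os_val`: `A s = {a ∈ A | (∃ w ∈ W, (∀ i, G i (w i) = a i) ∧ m (inp w) = true) ↔ s = true}`;
`A = A true ∪ A false`, `hard_splitA`. If `w ∈ W` and `(fun i => G i (w i)) ∈ A s` then
`m (inp w) = s` by `hm` (see `sends_iff` in Q/Si.lean).

`os_funs`: `os_fun` for the elements of `L` one after another.
-/

set_option autoImplicit false

namespace MP979

open Finset

variable {n : ℕ} {Z : Type} [Fintype Z] [DecidableEq Z] {𝕏 : Type}
  {G : Fin n → Z → Bool} {inp : (Fin n → Z) → 𝕏} {S : Finset ((Fin n → Z) → Bool)} {θ : ℕ}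
  {Y : Set 𝕏} {W : Finset (Fin n → Z)} {A B : Set (Fin n → Bool)} {t : ℕ} {M c : ℝ}

theorem os_mono {t' : ℕ} {M' c' : ℝ} (h : Os G inp S θ Y W A B t M c) (ht : t ≤ t')
    (hM : M' ≤ M) (hc : c' ≤ c) : Os G inp S θ Y W A B t' M' c' :=
  ⟨fun b hb => hM.trans (h.big b hb), fam_mono S θ ht h.fam, hard_mono h.hard hc⟩

private theorem ste_mem (W : Finset (Fin n → Z)) (Y : Set 𝕏) (b : Fin n → Bool) (w : Fin n → Z) :
    w ∈ Yb G inp W Y b ↔ w ∈ W ∧ (∀ i, G i (w i) = b i) ∧ inp w ∈ Y := by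
  simp only [Yb, mem_filter]

omit [Fintype Z] in
/-- the two parts of a set of inputs -/
private theorem ste_card (Y1 Y0 : Finset (Fin n → Z)) (U : Finset (Fin n → Z)) (hU : U ⊆ Y1 ∪ Y0) {M : ℝ}
    (hM : M ≤ U.card) : M / 2 ≤ Y1.card ∨ M / 2 ≤ Y0.card := by
  by_contra hcon
  rw [not_or] at hcon
  obtain ⟨h1, h0⟩ := hcon
  push Not at h1 h0
  have h2 : U.card ≤ Y1.card + Y0.card := (card_le_card hU).trans (card_union_le _ _)
  have h3 : (U.card : ℝ) ≤ Y1.card + Y0.card := by exact_mod_cast h2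
  linarith

theorem os_bob (h : Os G inp S θ Y W A B t M c) (m : 𝕏 → Bool) :
    ∃ (s : Bool) (B' : Set (Fin n → Bool)), B' ⊆ B ∧
      Os G inp S θ {y | y ∈ Y ∧ m y = s} W A B' t (M / 2) (c / 2) := by
  classical
  have key : ∀ b ∈ B, b ∈ {b | b ∈ B ∧ M / 2 ≤ (Yb G inp W {y | y ∈ Y ∧ m y = true} b).card} ∨
      b ∈ {b | b ∈ B ∧ M / 2 ≤ (Yb G inp W {y | y ∈ Y ∧ m y = false} b).card} := by
    intro b hb
    have h1 : Yb G inp W Y b ⊆ Yb G inp W {y | y ∈ Y ∧ m y = true} b ∪ Yb G inp W {y | y ∈ Y ∧ m y = false} b := by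
      intro w hw
      rw [ste_mem] at hw
      rw [mem_union, ste_mem, ste_mem]
      obtain ⟨hw1, hw2, hw3⟩ := hw
      cases hmw : m (inp w)
      · exact Or.inr ⟨hw1, hw2, hw3, hmw⟩
      · exact Or.inl ⟨hw1, hw2, hw3, hmw⟩
    rcases ste_card _ _ _ h1 (h.big b hb) with h2 | h2
    · exact Or.inl ⟨hb, h2⟩
    · exact Or.inr ⟨hb, h2⟩
  rcases hard_splitB h.hard key with h1 | h1
  · exact ⟨true, _, fun b hb => hb.1, ⟨fun b hb => hb.2, h.fam, h1⟩⟩
  · exact ⟨false, _, fun b hb => hb.1, ⟨fun b hb => hb.2, h.fam, h1⟩⟩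

theorem os_fun (h : Os G inp S θ Y W A B t M c) (m : 𝕏 → Bool)
    (hm : (fun w => m (inp w)) ∈ S) :
    ∃ (s : Bool) (B' : Set (Fin n → Bool)), B' ⊆ B ∧
      Os G inp S θ Y (W.filter (fun w => m (inp w) = s)) A B' (t + 1) (M / 2) (c / 2) := by
  classical
  have key : ∀ b ∈ B, b ∈ {b | b ∈ B ∧ M / 2 ≤ (Yb G inp (W.filter (fun w => m (inp w) = true)) Y b).card} ∨
      b ∈ {b | b ∈ B ∧ M / 2 ≤ (Yb G inp (W.filter (fun w => m (inp w) = false)) Y b).card} := by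
    intro b hb
    have h1 : Yb G inp W Y b ⊆ Yb G inp (W.filter (fun w => m (inp w) = true)) Y b ∪
        Yb G inp (W.filter (fun w => m (inp w) = false)) Y b := by
      intro w hw
      rw [ste_mem] at hw
      rw [mem_union, ste_mem, ste_mem, mem_filter, mem_filter]
      obtain ⟨hw1, hw2⟩ := hw
      cases hmw : m (inp w)
      · exact Or.inr ⟨⟨hw1, rfl⟩, hw2⟩
      · exact Or.inl ⟨⟨hw1, rfl⟩, hw2⟩
    rcases ste_card _ _ _ h1 (h.big b hb) with h2 | h2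
    · exact Or.inl ⟨hb, h2⟩
    · exact Or.inr ⟨hb, h2⟩
  rcases hard_splitB h.hard key with h1 | h1
  · exact ⟨true, _, fun b hb => hb.1, ⟨fun b hb => hb.2, fam_fun h.fam hm true, h1⟩⟩
  · exact ⟨false, _, fun b hb => hb.1, ⟨fun b hb => hb.2, fam_fun h.fam hm false, h1⟩⟩

theorem os_val (h : Os G inp S θ Y W A B t M c) (m : 𝕏 → Bool)
    (hm : ∀ w ∈ W, ∀ w' ∈ W, (∀ i, G i (w i) = G i (w' i)) → m (inp w) = m (inp w')) :
    ∃ (s : Bool) (A' : Set (Fin n → Bool)), A' ⊆ A ∧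
      (∀ w ∈ W, (fun i => G i (w i)) ∈ A' → m (inp w) = s) ∧
      Os G inp S θ Y W A' B t M (c / 2) := by
  classical
  have key : ∀ a ∈ A, a ∈ {a | a ∈ A ∧ ∃ w ∈ W, (∀ i, G i (w i) = a i) ∧ m (inp w) = true} ∨
      a ∈ {a | a ∈ A ∧ ¬ ∃ w ∈ W, (∀ i, G i (w i) = a i) ∧ m (inp w) = true} := by
    intro a ha
    by_cases h1 : ∃ w ∈ W, (∀ i, G i (w i) = a i) ∧ m (inp w) = true
    · exact Or.inl ⟨ha, h1⟩
    · exact Or.inr ⟨ha, h1⟩
  rcases hard_splitA h.hard key with h1 | h1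
  · refine ⟨true, _, fun a ha => ha.1, ?_, ⟨h.big, h.fam, h1⟩⟩
    rintro w hw ⟨-, w', hw', h2, h3⟩
    rw [hm w hw w' hw' fun i => (h2 i).symm]
    exact h3
  · refine ⟨false, _, fun a ha => ha.1, ?_, ⟨h.big, h.fam, h1⟩⟩
    rintro w hw ⟨-, h2⟩
    cases hmw : m (inp w)
    · rfl
    · exact absurd ⟨w, hw, fun i => rfl, hmw⟩ h2

theorem os_funs (L : List (𝕏 → Bool)) (hL : ∀ h ∈ L, (fun w => h (inp w)) ∈ S) :
    ∀ (W : Finset (Fin n → Z)) (B : Set (Fin n → Bool)) (t : ℕ) (M c : ℝ),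
      Os G inp S θ Y W A B t (2 ^ L.length * M) (2 ^ L.length * c) →
      ∃ W' B', W' ⊆ W ∧ B' ⊆ B ∧ (∀ h ∈ L, ∀ w ∈ W', ∀ w' ∈ W', h (inp w) = h (inp w')) ∧
        Os G inp S θ Y W' A B' (t + L.length) M c := by
  induction L with
  | nil =>
    intro W B t M c h
    refine ⟨W, B, subset_rfl, subset_rfl, fun h hh => absurd hh List.not_mem_nil, ?_⟩
    simpa using h
  | cons m L ih =>
    intro W B t M c h
    obtain ⟨s, B1, hB1, h1⟩ := os_fun h m (hL m List.mem_cons_self)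
    have e1 : ∀ x : ℝ, 2 ^ (m :: L).length * x / 2 = 2 ^ L.length * x := by
      intro x
      rw [List.length_cons, pow_succ]
      ring
    rw [e1, e1] at h1
    obtain ⟨W', B', hW', hB', hc, h2⟩ := ih (fun h hh => hL h (List.mem_cons_of_mem _ hh)) _ _ _ _ _ h1
    refine ⟨W', B', hW'.trans (filter_subset _ _), hB'.trans hB1, ?_, ?_⟩
    · intro h hh w hw w' hw'
      rcases List.mem_cons.1 hh with rfl | hh
      · rw [(mem_filter.1 (hW' hw)).2, (mem_filter.1 (hW' hw')).2]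
      · exact hc h hh w hw w' hw'
    · rw [List.length_cons]
      have e2 : t + (L.length + 1) = t + 1 + L.length := by ring
      rw [e2]
      exact h2

end MP979
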