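import Pool.Agent.Lib.MP_979eef_lc.R.Def
import Pool.Agent.Lib.MP_979eef_lc.Q.Fam

/-!
# MP_979eef_lc, one-sided protocols, module Sto: the state of the adversary (definitions)
-/

set_option autoImplicit false

namespace MP979

open Finset

variable {n : ℕ} {Z : Type} [Fintype Z] [DecidableEq Z] {𝕏 : Type}

open Classical in
/-- the elements of `W` with the values `b` whose input lies in `Y` -/
noncomputable def Yb (G : Fin n → Z → Bool) (inp : (Fin n → Z) → 𝕏) (W : Finset (Fin n → Z))
    (Y : Set 𝕏) (b : Fin n → Bool) : Finset (Fin n → Z) :=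
  W.filter (fun w => (∀ i, G i (w i) = b i) ∧ inp w ∈ Y)

/-- State of the adversary: `Y` the inputs of Bob, `W` the common virtual inputs, `A × B` the
rectangle of the outer function; every `b ∈ B` has at least `M` inputs of Bob in `W`. -/
structure Os (G : Fin n → Z → Bool) (inp : (Fin n → Z) → 𝕏) (S : Finset ((Fin n → Z) → Bool))
    (θ : ℕ) (Y : Set 𝕏) (W : Finset (Fin n → Z)) (A B : Set (Fin n → Bool)) (t : ℕ)
    (M c : ℝ) : Prop where
  big : ∀ b ∈ B, M ≤ (Yb G inp W Y b).card
  fam : W ∈ Fam S θ t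
  hard : HardQ A B c

/-- What is left of the game: for the inputs of Alice from `W`, `A` and the inputs `Y` of Bob, the
formula `ψ` separates them, or they differ in a block in `J`. -/
def Outp (G : Fin n → Z → Bool) (inp : (Fin n → Z) → (Fin n × Fin n → Bool))
    (X Y : Set (Fin n × Fin n → Bool)) (W : Finset (Fin n → Z)) (A : Set (Fin n → Bool))
    (ψ : Fml (Fin n × Fin n)) (J : Finset (Fin n)) : Prop :=
  (∀ y ∈ Y, ψ.eval y = false) ∧
    ∀ w ∈ W, (fun i => G i (w i)) ∈ A → inp w ∈ X → ∀ y ∈ Y,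
      ψ.eval (inp w) = true ∨ ∃ i ∈ J, blk (inp w) i ≠ blk y i

end MP979
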