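import Pool.Agent.Lib.MP_979eef_lc.R.Sto

/-!
# MP_979eef_lc, one-sided protocols, module SzD: definitions for the size bound
-/

set_option autoImplicit false

namespace MP979

open Finset

/-- `A` and `B` are separated by a formula of size at most `s`. -/
def SepR {n : ℕ} (A B : Set (Fin n → Bool)) (s : ℝ) : Prop :=
  ∃ φ : Fml (Fin n), (∀ a ∈ A, φ.eval a = true) ∧ (∀ b ∈ B, φ.eval b = false) ∧ (φ.size : ℝ) ≤ s

variable {n : ℕ} {Z : Type} [Fintype Z] [DecidableEq Z] {𝕏 : Type}

/-- State of the adversary for the size bound: every `w ∈ W` with values in `A` is an input of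
Alice, every `b ∈ B` has at least `M` inputs of Bob in `W`. -/
structure Ol (G : Fin n → Z → Bool) (inp : (Fin n → Z) → 𝕏) (S : Finset ((Fin n → Z) → Bool))
    (θ : ℕ) (X Y : Set 𝕏) (W : Finset (Fin n → Z)) (A B : Set (Fin n → Bool)) (t : ℕ)
    (M : ℝ) : Prop where
  inA : ∀ w ∈ W, (fun i => G i (w i)) ∈ A → inp w ∈ X
  big : ∀ b ∈ B, M ≤ (Yb G inp W Y b).card
  fam : W ∈ Fam S θ t

end MP979
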