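import Pool.Agent.Lib.MP_979eef_lc.R.SzD

/-!
# MP_979eef_lc, one-sided protocols, module SzS: steps for the size bound

As R/Ste.lean (landed or soon), but both parts are kept. `ol_bob`: `Yb W Y b` is the disjoint union of
`Yb W {y ∈ Y | m y = s} b`, `s : Bool`; `B1` = the `b ∈ B` with `α1 * M ≤ (Yb W {y ∈ Y | m y = true} b).card`,
`B0` = the `b ∈ B` with `α0 * M ≤ (Yb W {y ∈ Y | m y = false} b).card`; `α1 + α0 = 1` gives
`B ⊆ B1 ∪ B0`. `ol_fun`: the same with `Yb (W.filter (m (inp w) = s)) Y b`, `fam_fun`. `ol_val`: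
`A1 = {a ∈ A | ∃ w ∈ W, (∀ i, G i (w i) = a i) ∧ m (inp w) = true}`, `A0 = A \ A1`.
`ol_open`: induction on `L` with `ol_fun` (`α1 = α0 = 1 / 2`; forget `m x = s` in `X`) and `sep_B`.
`sep_A`: OR of the two formulas; `sep_B`: AND.
-/

set_option autoImplicit false

namespace MP979

open Finset

section
variable {n : ℕ} {A A0 A1 B B0 B1 : Set (Fin n → Bool)} {s s0 s1 : ℝ}

theorem sep_mono (h : SepR A B s) (hs : s ≤ s0) : SepR A B s0 := by
  obtain ⟨φ, h1, h2, h3⟩ := h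
  exact ⟨φ, h1, h2, h3.trans hs⟩

theorem sep_A (h1 : SepR A1 B s1) (h0 : SepR A0 B s0) (h : A ⊆ A1 ∪ A0) : SepR A B (s1 + s0) := by
  obtain ⟨φ1, a1, b1, c1⟩ := h1
  obtain ⟨φ0, a0, b0, c0⟩ := h0
  refine ⟨Fml.or φ1 φ0, ?_, ?_, ?_⟩
  · intro a ha
    simp only [Fml.eval, Bool.or_eq_true]
    rcases h ha with h3 | h3
    · exact Or.inl (a1 a h3)
    · exact Or.inr (a0 a h3)
  · intro b hb
    simp only [Fml.eval, b0 b hb, b1 b hb, Bool.or_false]
  · simp only [Fml.size, Nat.cast_add]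
    linarith

theorem sep_B (h1 : SepR A B1 s1) (h0 : SepR A B0 s0) (h : B ⊆ B1 ∪ B0) : SepR A B (s1 + s0) := by
  obtain ⟨φ1, a1, b1, c1⟩ := h1
  obtain ⟨φ0, a0, b0, c0⟩ := h0
  refine ⟨Fml.and φ1 φ0, ?_, ?_, ?_⟩
  · intro a ha
    simp only [Fml.eval, a0 a ha, a1 a ha, Bool.and_true]
  · intro b hb
    simp only [Fml.eval, Bool.and_eq_false_iff]
    rcases h hb with h3 | h3
    · exact Or.inl (b1 b h3)
    · exact Or.inr (b0 b h3)
  · simp only [Fml.size, Nat.cast_add]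
    linarith

theorem hard_of_not_sep (h : ¬ SepR A B s) : HardQ A B s := by
  intro φ h1 h2
  by_contra h3
  exact h ⟨φ, h1, h2, (not_le.1 h3).le⟩

end

variable {n : ℕ} {Z : Type} [Fintype Z] [DecidableEq Z] {𝕏 : Type}
  {G : Fin n → Z → Bool} {inp : (Fin n → Z) → 𝕏} {S : Finset ((Fin n → Z) → Bool)} {θ : ℕ}
  {X Y : Set 𝕏} {W : Finset (Fin n → Z)} {A B : Set (Fin n → Bool)} {t : ℕ} {M : ℝ}

omit [Fintype Z] [DecidableEq Z] in
private theorem szs_mem (W : Finset (Fin n → Z)) (Y : Set 𝕏) (b : Fin n → Bool) (w : Fin n → Z) :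
    w ∈ Yb G inp W Y b ↔ w ∈ W ∧ (∀ i, G i (w i) = b i) ∧ inp w ∈ Y := by
  simp only [Yb, mem_filter]

omit [Fintype Z] in
/-- the two parts of a set of inputs -/
private theorem szs_card (Y1 Y0 : Finset (Fin n → Z)) (U : Finset (Fin n → Z)) (hU : U ⊆ Y1 ∪ Y0)
    {M α1 α0 : ℝ} (hα : α1 + α0 = 1) (hM : M ≤ U.card) :
    α1 * M ≤ Y1.card ∨ α0 * M ≤ Y0.card := by
  by_contra hcon
  rw [not_or] at hcon
  obtain ⟨h1, h0⟩ := hcon
  push Not at h1 h0
  have h2 : U.card ≤ Y1.card + Y0.card := (card_le_card hU).trans (card_union_le _ _)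
  have h3 : (U.card : ℝ) ≤ Y1.card + Y0.card := by exact_mod_cast h2
  have h4 : α1 * M + α0 * M = M := by rw [← add_mul, hα, one_mul]
  linarith

theorem ol_mono {t' : ℕ} {M' : ℝ} (h : Ol G inp S θ X Y W A B t M) (ht : t ≤ t')
    (hM : M' ≤ M) : Ol G inp S θ X Y W A B t' M' :=
  ⟨h.inA, fun b hb => hM.trans (h.big b hb), fam_mono S θ ht h.fam⟩

theorem ol_bob (h : Ol G inp S θ X Y W A B t M) (m : 𝕏 → Bool) {α1 α0 : ℝ} (hα : α1 + α0 = 1) :
    ∃ B1 B0 : Set (Fin n → Bool), B ⊆ B1 ∪ B0 ∧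
      Ol G inp S θ X {y | y ∈ Y ∧ m y = true} W A B1 t (α1 * M) ∧
      Ol G inp S θ X {y | y ∈ Y ∧ m y = false} W A B0 t (α0 * M) := by
  classical
  refine ⟨{b | α1 * M ≤ (Yb G inp W {y | y ∈ Y ∧ m y = true} b).card},
    {b | α0 * M ≤ (Yb G inp W {y | y ∈ Y ∧ m y = false} b).card}, ?_,
    ⟨h.inA, fun b hb => hb, h.fam⟩, ⟨h.inA, fun b hb => hb, h.fam⟩⟩
  intro b hb
  have h1 : Yb G inp W Y b ⊆ Yb G inp W {y | y ∈ Y ∧ m y = true} b ∪ Yb G inp W {y | y ∈ Y ∧ m y = false} b := by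
    intro w hw
    rw [szs_mem] at hw
    rw [mem_union, szs_mem, szs_mem]
    obtain ⟨hw1, hw2, hw3⟩ := hw
    cases hmw : m (inp w)
    · exact Or.inr ⟨hw1, hw2, hw3, hmw⟩
    · exact Or.inl ⟨hw1, hw2, hw3, hmw⟩
  rcases szs_card _ _ _ h1 hα (h.big b hb) with h2 | h2
  · exact Or.inl h2
  · exact Or.inr h2

theorem ol_fun (h : Ol G inp S θ X Y W A B t M) (m : 𝕏 → Bool)
    (hm : (fun w => m (inp w)) ∈ S) {α1 α0 : ℝ} (hα : α1 + α0 = 1) :
    ∃ B1 B0 : Set (Fin n → Bool), B ⊆ B1 ∪ B0 ∧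
      Ol G inp S θ {x | x ∈ X ∧ m x = true} Y (W.filter (fun w => m (inp w) = true)) A B1 (t + 1)
        (α1 * M) ∧
      Ol G inp S θ {x | x ∈ X ∧ m x = false} Y (W.filter (fun w => m (inp w) = false)) A B0 (t + 1)
        (α0 * M) := by
  classical
  refine ⟨{b | α1 * M ≤ (Yb G inp (W.filter (fun w => m (inp w) = true)) Y b).card},
    {b | α0 * M ≤ (Yb G inp (W.filter (fun w => m (inp w) = false)) Y b).card}, ?_,
    ⟨fun w hw hA => ⟨h.inA w (mem_filter.1 hw).1 hA, (mem_filter.1 hw).2⟩, fun b hb => hb,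
      fam_fun h.fam hm true⟩,
    ⟨fun w hw hA => ⟨h.inA w (mem_filter.1 hw).1 hA, (mem_filter.1 hw).2⟩, fun b hb => hb,
      fam_fun h.fam hm false⟩⟩
  intro b hb
  have h1 : Yb G inp W Y b ⊆ Yb G inp (W.filter (fun w => m (inp w) = true)) Y b ∪
      Yb G inp (W.filter (fun w => m (inp w) = false)) Y b := by
    intro w hw
    rw [szs_mem] at hw
    rw [mem_union, szs_mem, szs_mem, mem_filter, mem_filter]
    obtain ⟨hw1, hw2⟩ := hw
    cases hmw : m (inp w)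
    · exact Or.inr ⟨⟨hw1, rfl⟩, hw2⟩
    · exact Or.inl ⟨⟨hw1, rfl⟩, hw2⟩
  rcases szs_card _ _ _ h1 hα (h.big b hb) with h2 | h2
  · exact Or.inl h2
  · exact Or.inr h2

theorem ol_val (h : Ol G inp S θ X Y W A B t M) (m : 𝕏 → Bool)
    (hm : ∀ w ∈ W, ∀ w' ∈ W, (∀ i, G i (w i) = G i (w' i)) → m (inp w) = m (inp w')) :
    ∃ A1 A0 : Set (Fin n → Bool), A ⊆ A1 ∪ A0 ∧
      Ol G inp S θ {x | x ∈ X ∧ m x = true} Y W A1 B t M ∧
      Ol G inp S θ {x | x ∈ X ∧ m x = false} Y W A0 B t M := by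
  classical
  refine ⟨{a | a ∈ A ∧ ∃ w ∈ W, (∀ i, G i (w i) = a i) ∧ m (inp w) = true},
    {a | a ∈ A ∧ ¬ ∃ w ∈ W, (∀ i, G i (w i) = a i) ∧ m (inp w) = true}, ?_,
    ⟨?_, h.big, h.fam⟩, ⟨?_, h.big, h.fam⟩⟩
  · intro a ha
    by_cases h1 : ∃ w ∈ W, (∀ i, G i (w i) = a i) ∧ m (inp w) = true
    · exact Or.inl ⟨ha, h1⟩
    · exact Or.inr ⟨ha, h1⟩
  · rintro w hw ⟨hA, w', hw', h2, h3⟩
    refine ⟨h.inA w hw hA, ?_⟩
    rw [hm w hw w' hw' fun i => (h2 i).symm]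
    exact h3
  · rintro w hw ⟨hA, h2⟩
    refine ⟨h.inA w hw hA, ?_⟩
    cases hmw : m (inp w)
    · rfl
    · exact absurd ⟨w, hw, fun i => rfl, hmw⟩ h2

theorem ol_open {s : ℝ} (L : List (𝕏 → Bool)) (hL : ∀ h ∈ L, (fun w => h (inp w)) ∈ S) :
    ∀ (W : Finset (Fin n → Z)) (B : Set (Fin n → Bool)) (t : ℕ) (M : ℝ),
      Ol G inp S θ X Y W A B t M →
      (∀ W' B', W' ⊆ W → (∀ h ∈ L, ∀ w ∈ W', ∀ w' ∈ W', h (inp w) = h (inp w')) →
        Ol G inp S θ X Y W' A B' (t + L.length) (M / 2 ^ L.length) → SepR A B' s) →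
      SepR A B (2 ^ L.length * s) := by
  induction L with
  | nil =>
    intro W B t M h hyp
    have h1 := hyp W B subset_rfl (fun h hh => absurd hh List.not_mem_nil) (by simpa using h)
    simpa using h1
  | cons m L ih =>
    intro W B t M h hyp
    obtain ⟨B1, B0, hB, h1, h0⟩ := ol_fun h m (hL m List.mem_cons_self)
      (show (1 / 2 : ℝ) + 1 / 2 = 1 by norm_num)
    have e1 : ∀ x : ℝ, 1 / 2 * x / 2 ^ L.length = x / 2 ^ (m :: L).length := by
      intro x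
      rw [List.length_cons, pow_succ]
      field_simp
    have e2 : t + 1 + L.length = t + (m :: L).length := by
      rw [List.length_cons]
      ring
    have key : ∀ (c : Bool) (B' : Set (Fin n → Bool)),
        Ol G inp S θ {x | x ∈ X ∧ m x = c} Y (W.filter (fun w => m (inp w) = c)) A B' (t + 1)
          (1 / 2 * M) → SepR A B' (2 ^ L.length * s) := by
      intro c B' h2
      refine ih (fun h hh => hL h (List.mem_cons_of_mem _ hh)) _ _ _ _
        ⟨fun w hw hA => (h2.inA w hw hA).1, h2.big, h2.fam⟩ ?_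
      intro W' B'' hW' hc h3
      refine hyp W' B'' (hW'.trans (filter_subset _ _)) ?_ ?_
      · intro h hh w hw w' hw'
        rcases List.mem_cons.1 hh with rfl | hh
        · rw [(mem_filter.1 (hW' hw)).2, (mem_filter.1 (hW' hw')).2]
        · exact hc h hh w hw w' hw'
      · rw [e1, e2] at h3
        exact h3
    have h4 := sep_B (key true B1 h1) (key false B0 h0) hB
    have e3 : (2 : ℝ) ^ (m :: L).length * s = 2 ^ L.length * s + 2 ^ L.length * s := by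
      rw [List.length_cons, pow_succ]
      ring
    rw [e3]
    exact h4

end MP979
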