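import Pool.Agent.Lib.MP_979eef_lc.R.Def
import Pool.Agent.Lib.MP_979eef_lc.Q.Upp

/-!
# MP_979eef_lc, one-sided protocols, module Upo: the usual protocol is one-sided

Copy `upp_main` (Q/Upp.lean) with `OneSided g ∅ 1 k 0 0 [] P` in place of `Simple g ∅ 0 0 1 k ∅ [] P`, and
with `P.swap` too (at a Bob node of `P` the node of `P.swap` is an Alice node with the message
`fun y => p.eval (fun i => g (blk y i))`). Protocols with all leaves in one block (`upp_block`) satisfy
`OneSided` for all `k` (each Alice node by the first clause; needs `InBlocks J P.swap` too).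
-/

set_option autoImplicit false

namespace MP979

open Finset

private theorem upo_swap {n : ℕ} {J : Finset (Fin n)} (P : Prot (Fin n × Fin n))
    (h : InBlocks J P) : InBlocks J P.swap := by
  induction P with
  | leaf i => exact h
  | alice m P Q hP hQ => exact ⟨hP h.1, hQ h.2⟩
  | bob m P Q hP hQ => exact ⟨hP h.1, hQ h.2⟩

theorem oneSided_inBlocks {n : ℕ} {g : (Fin n → Bool) → Bool} {j : Fin n} (k : ℕ) :
    ∀ P : Prot (Fin n × Fin n), InBlocks {j} P → OneSided g ∅ 1 k 0 0 [] P := by
  induction k with
  | zero => intro P _; trivial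
  | succ k ih =>
    intro P h
    cases P with
    | leaf i => trivial
    | alice m P P' => exact Or.inl ⟨{j}, by simp, h⟩
    | bob m P P' => exact ⟨ih P h.1, ih P' h.2⟩

private theorem upo_both {n : ℕ} {g : (Fin n → Bool) → Bool} {j : Fin n}
    {P : Prot (Fin n × Fin n)} (h : InBlocks {j} P) (k : ℕ) :
    OneSided g ∅ 1 k 0 0 [] P ∧ OneSided g ∅ 1 k 0 0 [] P.swap :=
  ⟨oneSided_inBlocks k P h, oneSided_inBlocks k P.swap (upo_swap P h)⟩

private theorem upo_msg {n : ℕ} {g : (Fin n → Bool) → Bool} (p : Fml (Fin n)) {k : ℕ}
    {P P' : Prot (Fin n × Fin n)} (h : OneSided g ∅ 1 k 0 0 [] P)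
    (h' : OneSided g ∅ 1 k 0 0 [] P') :
    OneSided g ∅ 1 (k + 1) 0 0 [] (.alice (fun x => p.eval (fun i => g (blk x i))) P P') := by
  refine Or.inr (Or.inr (Or.inr ⟨[], by simp, by simp, ?_, h, h'⟩))
  intro x y hxy _ _
  have : (fun i => g (blk x i)) = fun i => g (blk y i) := funext hxy
  simp only [this]

theorem upo_main {n : ℕ} (g : (Fin n → Bool) → Bool) (ψ : Fml (Fin n))
    (hψ : ∀ x, ψ.eval x = g x) (φ : Fml (Fin n)) (X Y : Set (Fin n × Fin n → Bool))
    (hX : ∀ x ∈ X, φ.eval (fun i => g (blk x i)) = true)
    (hY : ∀ y ∈ Y, φ.eval (fun i => g (blk y i)) = false) :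
    ∃ P : Prot (Fin n × Fin n), P.depth ≤ φ.depth + ψ.depth ∧ P.Correct X Y ∧
      ∀ k, OneSided g ∅ 1 k 0 0 [] P ∧ OneSided g ∅ 1 k 0 0 [] P.swap := by
  induction φ generalizing X Y with
  | lit i b =>
    cases b with
    | true =>
      obtain ⟨P, h0, h1, h2, h3⟩ := upp_block i ψ X Y
        (fun x hx => by
          have := hX x hx
          simp only [Fml.eval, beq_iff_eq] at this
          rw [hψ]; exact this)
        (fun y hy => by
          have := hY y hy
          simp only [Fml.eval] at this
          rw [hψ]
          revert this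
          cases g (blk y i) <;> simp)
      exact ⟨P, by simp only [Fml.depth]; omega, h3, fun k => upo_both h0 k⟩
    | false =>
      obtain ⟨P, h0, h1, h2, h3⟩ := upp_block i ψ.dual X Y
        (fun x hx => by
          have := hX x hx
          simp only [Fml.eval, beq_iff_eq] at this
          rw [Fml.eval_dual, hψ, this]; rfl)
        (fun y hy => by
          have := hY y hy
          simp only [Fml.eval] at this
          rw [Fml.eval_dual, hψ]
          revert this
          cases g (blk y i) <;> simp)
      rw [Fml.depth_dual] at h1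
      exact ⟨P, by simp only [Fml.depth]; omega, h3, fun k => upo_both h0 k⟩
  | and p q hp hq =>
    obtain ⟨P, p1, p2, p4⟩ := hp X {y | y ∈ Y ∧ p.eval (fun i => g (blk y i)) = false}
      (fun x hx => by
        have := hX x hx
        simp only [Fml.eval, Bool.and_eq_true] at this
        exact this.1) (fun y hy => hy.2)
    obtain ⟨Q, q1, q2, q4⟩ := hq X {y | y ∈ Y ∧ p.eval (fun i => g (blk y i)) = true}
      (fun x hx => by
        have := hX x hx
        simp only [Fml.eval, Bool.and_eq_true] at this
        exact this.2) (fun y hy => by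
        have := hY y hy.1
        have h2 : p.eval (fun i => g (blk y i)) = true := hy.2
        simpa [Fml.eval, h2] using this)
    refine ⟨.bob (fun y => p.eval (fun i => g (blk y i))) Q P, ?_, ?_, ?_⟩
    · simp only [Prot.depth, Fml.depth]; omega
    · intro x hx y hy
      cases hm : p.eval (fun i => g (blk y i)) with
      | true =>
        have := q2 x hx y ⟨hy, hm⟩
        simpa [Prot.run, hm] using this
      | false =>
        have := p2 x hx y ⟨hy, hm⟩
        simpa [Prot.run, hm] using this
    · intro k
      cases k with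
      | zero => exact ⟨trivial, trivial⟩
      | succ k => exact ⟨⟨(q4 k).1, (p4 k).1⟩, upo_msg p (q4 k).2 (p4 k).2⟩
  | or p q hp hq =>
    obtain ⟨P, p1, p2, p4⟩ := hp {x | x ∈ X ∧ p.eval (fun i => g (blk x i)) = true} Y
      (fun x hx => hx.2) (fun y hy => by
        have := hY y hy
        simp only [Fml.eval, Bool.or_eq_false_iff] at this
        exact this.1)
    obtain ⟨Q, q1, q2, q4⟩ := hq {x | x ∈ X ∧ p.eval (fun i => g (blk x i)) = false} Y
      (fun x hx => by
        have := hX x hx.1
        have h2 : p.eval (fun i => g (blk x i)) = false := hx.2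
        simpa [Fml.eval, h2] using this) (fun y hy => by
        have := hY y hy
        simp only [Fml.eval, Bool.or_eq_false_iff] at this
        exact this.2)
    refine ⟨.alice (fun x => p.eval (fun i => g (blk x i))) P Q, ?_, ?_, ?_⟩
    · simp only [Prot.depth, Fml.depth]; omega
    · intro x hx y hy
      cases hm : p.eval (fun i => g (blk x i)) with
      | true =>
        have := p2 x ⟨hx, hm⟩ y hy
        simpa [Prot.run, hm] using this
      | false =>
        have := q2 x ⟨hx, hm⟩ y hy
        simpa [Prot.run, hm] using this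
    · intro k
      cases k with
      | zero => exact ⟨trivial, trivial⟩
      | succ k => exact ⟨upo_msg p (p4 k).1 (q4 k).1, ⟨(p4 k).2, (q4 k).2⟩⟩

end MP979
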